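import Mathlib

/-! Partial derivatives of functions which are smooth outside the origin. -/

set_option autoImplicit false

namespace Pool.Agent.Q145.LB

open Finset

variable {n : ℕ}

/-- partial derivative -/
noncomputable def d (i : Fin n) (φ : (Fin n → ℝ) → ℝ) : (Fin n → ℝ) → ℝ :=
  fun y => fderiv ℝ φ y (Pi.single i (1 : ℝ))

/-- smooth outside the origin -/
def Sm (φ : (Fin n → ℝ) → ℝ) : Prop := ContDiffOn ℝ ((⊤ : ℕ∞) : WithTop ℕ∞) φ {y | y ≠ 0}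

lemma isOpen0 : IsOpen {y : Fin n → ℝ | y ≠ 0} := isOpen_ne

lemma Sm.cda {φ : (Fin n → ℝ) → ℝ} (h : Sm φ) {y : Fin n → ℝ} (hy : y ≠ 0) :
    ContDiffAt ℝ ((⊤ : ℕ∞) : WithTop ℕ∞) φ y := h.contDiffAt (isOpen0.mem_nhds hy)

lemma Sm.diff {φ : (Fin n → ℝ) → ℝ} (h : Sm φ) {y : Fin n → ℝ} (hy : y ≠ 0) : DifferentiableAt ℝ φ y :=
  (h.cda hy).differentiableAt (by simp)

lemma Sm.d {φ : (Fin n → ℝ) → ℝ} (h : Sm φ) (i : Fin n) : Sm (d i φ) := by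
  have h1 : ContDiffOn ℝ ((⊤ : ℕ∞) : WithTop ℕ∞) (fderiv ℝ φ) {y | y ≠ 0} :=
    h.fderiv_of_isOpen isOpen0 (by simp)
  exact h1.clm_apply contDiffOn_const

lemma Sm.mul {φ ψ : (Fin n → ℝ) → ℝ} (h : Sm φ) (h' : Sm ψ) : Sm (fun y => φ y * ψ y) := ContDiffOn.mul h h'

lemma Sm.add {φ ψ : (Fin n → ℝ) → ℝ} (h : Sm φ) (h' : Sm ψ) : Sm (fun y => φ y + ψ y) := ContDiffOn.add h h'

lemma Sm.const (c : ℝ) : Sm (fun _ : Fin n → ℝ => c) := contDiffOn_const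

lemma Sm.coord (i : Fin n) : Sm (fun y : Fin n → ℝ => y i) := (contDiff_apply ℝ ℝ i).contDiffOn

lemma Sm.sum {ι : Type} {s : Finset ι} {φ : ι → (Fin n → ℝ) → ℝ} (h : ∀ i ∈ s, Sm (φ i)) :
    Sm (fun y => ∑ i ∈ s, φ i y) := ContDiffOn.sum h

lemma Sm.prod {ι : Type} {s : Finset ι} {φ : ι → (Fin n → ℝ) → ℝ} (h : ∀ i ∈ s, Sm (φ i)) :
    Sm (fun y => ∏ i ∈ s, φ i y) := contDiffOn_prod h

lemma Sm.inv {φ : (Fin n → ℝ) → ℝ} (h : Sm φ) (h0 : ∀ y, y ≠ 0 → φ y ≠ 0) : Sm (fun y => (φ y)⁻¹) :=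
  ContDiffOn.inv h h0

lemma Sm.cont {φ : (Fin n → ℝ) → ℝ} (h : Sm φ) : ContinuousOn φ {y | y ≠ 0} := h.continuousOn

lemma Sm.congr {φ ψ : (Fin n → ℝ) → ℝ} (h : Sm φ) (he : ∀ y, y ≠ 0 → ψ y = φ y) : Sm ψ :=
  ContDiffOn.congr h he

lemma fderiv_apply_eq {φ : (Fin n → ℝ) → ℝ} (y w : Fin n → ℝ) :
    fderiv ℝ φ y w = ∑ i, w i * d i φ y := by
  have h : w = ∑ i, w i • (Pi.single i (1 : ℝ) : Fin n → ℝ) := by
    ext j
    simp [Finset.sum_apply, Pi.single_apply]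
  conv_lhs => rw [h]
  rw [map_sum]
  exact sum_congr rfl fun i _ => by rw [map_smul, smul_eq_mul]; rfl

/-- derivative along a line -/
lemma Sm.line {φ : (Fin n → ℝ) → ℝ} (h : Sm φ) (y w : Fin n → ℝ) (t : ℝ) (hy : y + t • w ≠ 0) :
    HasDerivAt (fun s : ℝ => φ (y + s • w)) (∑ i, w i * Pool.Agent.Q145.LB.d i φ (y + t • w)) t := by
  have h1 : HasDerivAt (fun s : ℝ => y + s • w) w t := by
    simpa using ((hasDerivAt_id t).smul_const w).const_add y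
  have h2 := (h.diff hy).hasFDerivAt.comp_hasDerivAt t h1
  rw [fderiv_apply_eq] at h2
  exact h2

lemma Sm.line0 {φ : (Fin n → ℝ) → ℝ} (h : Sm φ) {y : Fin n → ℝ} (hy : y ≠ 0) (w : Fin n → ℝ) :
    HasDerivAt (fun s : ℝ => φ (y + s • w)) (∑ i, w i * Pool.Agent.Q145.LB.d i φ y) 0 := by
  have := h.line y w 0 (by simpa using hy)
  simpa using this

lemma Sm.dir {φ : (Fin n → ℝ) → ℝ} (h : Sm φ) {y : Fin n → ℝ} (hy : y ≠ 0) (k : Fin n) :
    HasDerivAt (fun s : ℝ => φ (y + s • (Pi.single k (1 : ℝ) : Fin n → ℝ))) (Pool.Agent.Q145.LB.d k φ y) 0 := by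
  have := h.line0 hy (Pi.single k (1 : ℝ) : Fin n → ℝ)
  rw [← fderiv_apply_eq] at this
  exact this

lemma near {y : Fin n → ℝ} (hy : y ≠ 0) (w : Fin n → ℝ) : ∀ᶠ s : ℝ in nhds 0, y + s • w ≠ 0 := by
  have h1 : Continuous (fun s : ℝ => y + s • w) := by fun_prop
  have h2 : (fun s : ℝ => y + s • w) 0 ∈ {y : Fin n → ℝ | y ≠ 0} := by simpa using hy
  exact h1.continuousAt.eventually_mem (isOpen0.mem_nhds h2)

/-- an identity may be differentiated -/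
lemma diff_id {φ ψ : (Fin n → ℝ) → ℝ} (h : ∀ y, y ≠ 0 → φ y = ψ y) {y : Fin n → ℝ} (hy : y ≠ 0)
    (w : Fin n → ℝ) {a b : ℝ} (ha : HasDerivAt (fun t : ℝ => φ (y + t • w)) a 0)
    (hb : HasDerivAt (fun t : ℝ => ψ (y + t • w)) b 0) : a = b := by
  refine ha.unique (hb.congr_of_eventuallyEq ?_)
  filter_upwards [near hy w] with t ht using h _ ht

lemma d_congr {φ ψ : (Fin n → ℝ) → ℝ} (h : ∀ y, y ≠ 0 → φ y = ψ y) {y : Fin n → ℝ} (hy : y ≠ 0) (k : Fin n) :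
    d k φ y = d k ψ y := by
  have : φ =ᶠ[nhds y] ψ := by
    filter_upwards [isOpen0.mem_nhds hy] with z hz using h z hz
  unfold d
  rw [this.fderiv_eq]

lemma two_le : (2 : WithTop ℕ∞) ≤ ((⊤ : ℕ∞) : WithTop ℕ∞) := by
  have h : ((2 : ℕ∞) : WithTop ℕ∞) ≤ ((⊤ : ℕ∞) : WithTop ℕ∞) := WithTop.coe_le_coe.2 le_top
  exact h

lemma d_comm {φ : (Fin n → ℝ) → ℝ} (h : Sm φ) {y : Fin n → ℝ} (hy : y ≠ 0) (i j : Fin n) :
    d i (d j φ) y = d j (d i φ) y := by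
  have h1 : IsSymmSndFDerivAt ℝ φ y := (h.cda hy).isSymmSndFDerivAt (by
    rw [minSmoothness_of_isRCLikeNormedField]; exact two_le)
  have h2 : DifferentiableAt ℝ (fderiv ℝ φ) y := by
    have h3 : ContDiffAt ℝ 1 (fderiv ℝ φ) y := (h.cda hy).fderiv_right (by
      rw [one_add_one_eq_two]; exact two_le)
    exact h3.differentiableAt (by simp)
  have h4 : ∀ i j : Fin n, d i (d j φ) y =
      fderiv ℝ (fderiv ℝ φ) y (Pi.single i (1 : ℝ)) (Pi.single j (1 : ℝ)) := by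
    intro i j
    unfold d
    rw [fderiv_clm_apply h2 (differentiableAt_const _)]
    simp
  rw [h4, h4]
  exact h1 _ _

/-- homogeneous of degree `k` -/
def Hom (k : ℤ) (φ : (Fin n → ℝ) → ℝ) : Prop :=
  ∀ y, y ≠ 0 → ∀ t : ℝ, 0 < t → φ (t • y) = t ^ k * φ y

lemma Hom.d {k : ℤ} {φ : (Fin n → ℝ) → ℝ} (h : Hom k φ) (i : Fin n) : Hom (k - 1) (d i φ) := by
  intro y hy t ht
  have h1 : (fun z : Fin n → ℝ => φ (t • z)) =ᶠ[nhds y] fun z => t ^ k * φ z := by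
    filter_upwards [isOpen0.mem_nhds hy] with z hz using h z hz t ht
  have h2 := h1.fderiv_eq (𝕜 := ℝ)
  have h3 : fderiv ℝ (fun z : Fin n → ℝ => φ (t • z)) y = t • fderiv ℝ φ (t • y) := fderiv_comp_smul t
  have h4 : fderiv ℝ (fun z => t ^ k * φ z) y = t ^ k • fderiv ℝ φ y := by
    have h6 : (fun z => t ^ k * φ z) = (t ^ k) • φ := rfl
    rw [h6, fderiv_const_smul_field]
    rfl
  rw [h3, h4] at h2
  have h5 := congrArg (fun L : (Fin n → ℝ) →L[ℝ] ℝ => L (Pi.single i (1 : ℝ))) h2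
  simp only [smul_apply, smul_eq_mul] at h5
  unfold Pool.Agent.Q145.LB.d
  rw [zpow_sub_one₀ ht.ne']
  field_simp
  rw [mul_comm] at h5
  linarith

lemma Hom.euler {k : ℤ} {φ : (Fin n → ℝ) → ℝ} (h : Hom k φ) (hs : Sm φ) {y : Fin n → ℝ} (hy : y ≠ 0) :
    ∑ i, y i * Pool.Agent.Q145.LB.d i φ y = k * φ y := by
  have h1 := hs.line0 hy y
  have h2 : HasDerivAt (fun t : ℝ => (1 + t) ^ k * φ y) (k * φ y) 0 := by
    have h3 : HasDerivAt (fun t : ℝ => (1 + t)) 1 0 := by simpa using (hasDerivAt_id (0 : ℝ)).const_add 1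
    have h4 := (hasDerivAt_zpow k ((1 : ℝ) + 0) (Or.inl (by norm_num))).comp 0 h3
    have h5 := h4.mul_const (φ y)
    simpa using h5
  refine h1.unique (h2.congr_of_eventuallyEq ?_)
  have : ∀ᶠ t : ℝ in nhds 0, -1 < t := eventually_gt_nhds (by norm_num)
  filter_upwards [this] with t ht
  have := h y hy (1 + t) (by linarith)
  rw [add_smul, one_smul] at this
  exact this

end Pool.Agent.Q145.LB
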