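import Pool.Agent.Q145.LB.Pt

/-! Derivative of the determinant, smoothness of the inverse matrix, square roots. -/

set_option autoImplicit false

namespace Pool.Agent.Q145.LB

open Finset Matrix

variable {n : ℕ}

/-- the formal derivative of the determinant -/
noncomputable def DD (g g' : Matrix (Fin n) (Fin n) ℝ) : ℝ :=
  ∑ σ : Equiv.Perm (Fin n), ((Equiv.Perm.sign σ : ℤ) : ℝ) *
    ∑ i, (∏ j ∈ univ.erase i, g (σ j) j) * g' (σ i) i

lemma MD.detD {g : ℝ → Matrix (Fin n) (Fin n) ℝ} {g' : Matrix (Fin n) (Fin n) ℝ} (hg : MD g g') :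
    HasDerivAt (fun t => (g t).det) (DD (g 0) g') 0 := by
  have h : (fun t => (g t).det) = fun t => ∑ σ : Equiv.Perm (Fin n), ((Equiv.Perm.sign σ : ℤ) : ℝ) *
      ∏ i, g t (σ i) i := by
    funext t
    rw [det_apply']
  rw [h]
  unfold DD
  refine HasDerivAt.fun_sum fun σ _ => HasDerivAt.const_mul _ ?_
  have h2 := HasDerivAt.fun_finsetProd (u := univ) (f := fun i t => g t (σ i) i) (f' := fun i => g' (σ i) i)
    (x := (0 : ℝ)) (fun i _ => hg (σ i) i)
  simpa [smul_eq_mul] using h2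

/-- Jacobi's formula -/
lemma MD.det {g : ℝ → Matrix (Fin n) (Fin n) ℝ} {g' h : Matrix (Fin n) (Fin n) ℝ} (hg : MD g g')
    (hh : g 0 * h = 1) : HasDerivAt (fun t => (g t).det) ((g 0).det * (h * g').trace) 0 := by
  have h1 : MD (fun t : ℝ => g 0 + t • g') g' := by
    intro i j
    have : HasDerivAt (fun t : ℝ => g 0 i j + t * g' i j) (g' i j) 0 := by
      simpa using ((hasDerivAt_id (0 : ℝ)).mul_const (g' i j)).const_add (g 0 i j)
    exact this
  have h2 := h1.detD
  simp only [zero_smul, add_zero] at h2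
  have h3 : ∀ t : ℝ, (g 0 + t • g').det = (g 0).det * (1 + (h * g').trace * t +
      (Matrix.det (1 + (Polynomial.X : Polynomial ℝ) • (h * g').map Polynomial.C)).divX.divX.eval t * t ^ 2) := by
    intro t
    rw [← det_one_add_smul, ← det_mul, mul_add, mul_one, mul_smul_comm, ← mul_assoc, hh, one_mul]
  have h4 : HasDerivAt (fun t : ℝ => (g 0 + t • g').det) ((g 0).det * (h * g').trace) 0 := by
    rw [funext h3]
    refine HasDerivAt.const_mul _ ?_
    have h5 : HasDerivAt (fun t : ℝ => (h * g').trace * t) (h * g').trace 0 := by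
      simpa using (hasDerivAt_id (0 : ℝ)).const_mul (h * g').trace
    have h6 := ((Matrix.det (1 + (Polynomial.X : Polynomial ℝ) •
      (h * g').map Polynomial.C)).divX.divX).hasDerivAt (0 : ℝ)
    have h7 := h6.mul (hasDerivAt_pow 2 (0 : ℝ))
    have h8 := (h5.const_add 1).add h7
    refine h8.congr_deriv ?_
    simp
  rw [← h2.unique h4]
  exact hg.detD

lemma Sm.det {A : (Fin n → ℝ) → Matrix (Fin n) (Fin n) ℝ} (h : ∀ i j, Sm (fun y => A y i j)) :
    Sm (fun y => (A y).det) := by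
  have h1 : (fun y => (A y).det) = fun y => ∑ σ : Equiv.Perm (Fin n), ((Equiv.Perm.sign σ : ℤ) : ℝ) *
      ∏ i, A y (σ i) i := by
    funext t
    rw [det_apply']
  rw [h1]
  exact Sm.sum fun σ _ => (Sm.const _).mul (Sm.prod fun i _ => h (σ i) i)

lemma Sm.matInv {A : (Fin n → ℝ) → Matrix (Fin n) (Fin n) ℝ} (h : ∀ i j, Sm (fun y => A y i j))
    (h0 : ∀ y, y ≠ 0 → (A y).det ≠ 0) (i j : Fin n) : Sm (fun y => (A y)⁻¹ i j) := by
  have h1 : Sm (fun y => ((A y).det)⁻¹ * ((A y).updateRow j (Pi.single i 1)).det) := by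
    refine (Sm.inv (Sm.det h) h0).mul (Sm.det fun k l => ?_)
    by_cases hk : k = j
    · subst hk
      simp only [updateRow_self]
      exact Sm.const _
    · simp only [updateRow_ne hk]
      exact h k l
  refine h1.congr fun y hy => ?_
  rw [Matrix.inv_def, Ring.inverse_eq_inv', Matrix.smul_apply, adjugate_apply, smul_eq_mul]

open scoped MatrixOrder in
/-- a positive definite inverse is `Bᵀ B` with an invertible `B` -/
lemma exists_root {g : Matrix (Fin n) (Fin n) ℝ} (hs : gᵀ = g)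
    (hp : ∀ v : Fin n → ℝ, v ≠ 0 → 0 < ∑ i, ∑ j, g i j * v i * v j) :
    g.det ≠ 0 ∧ ∃ B : Matrix (Fin n) (Fin n) ℝ, g⁻¹ = Bᵀ * B ∧ B.det ≠ 0 := by
  have h1 : g.PosDef := by
    refine PosDef.of_dotProduct_mulVec_pos ?_ fun v hv => ?_
    · rw [IsHermitian, conjTranspose_eq_transpose_of_trivial, hs]
    · have := hp v hv
      refine this.trans_eq ?_
      simp only [dotProduct, mulVec, star_trivial]
      refine sum_congr rfl fun i _ => ?_
      rw [mul_sum]
      exact sum_congr rfl fun j _ => by ring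
  have h2 : g.det ≠ 0 := h1.det_pos.ne'
  refine ⟨h2, ?_⟩
  have h3 : (g⁻¹).PosDef := h1.inv
  have h4 : (0 : Matrix (Fin n) (Fin n) ℝ) ≤ g⁻¹ := h3.posSemidef.nonneg
  obtain ⟨B, hB⟩ := CStarAlgebra.nonneg_iff_eq_star_mul_self.1 h4
  have hB' : g⁻¹ = Bᵀ * B := by
    rw [hB, star_eq_conjTranspose, conjTranspose_eq_transpose_of_trivial]
  refine ⟨B, hB', fun h0 => ?_⟩
  have h5 := h3.det_pos
  rw [hB', det_mul, h0, mul_zero] at h5
  exact lt_irrefl _ h5

end Pool.Agent.Q145.LB
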