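import Pool.Agent.Q145.LB.X

/-! Conformal changes between Landsberg metrics. -/

set_option autoImplicit false

open scoped ContDiff

namespace Pool.Agent.Q145.LB

open Finset Matrix Pool.Agent.Y519.UN

variable {n : ℕ}

/-- the conformal field -/
noncomputable def WW (E : (Fin n → ℝ) → ℝ) (a y : Fin n → ℝ) : Fin n → ℝ :=
  fun i => E y * ((gM E y)⁻¹ *ᵥ a) i

namespace Mink

variable {E : (Fin n → ℝ) → ℝ} (M : Mink E)

include M

lemma cSm (a : Fin n → ℝ) (i : Fin n) : Sm (fun y => ((gM E y)⁻¹ *ᵥ a) i) := by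
  simp only [mulVec, dotProduct]
  exact Sm.sum fun j _ => (M.hSm i j).mul (Sm.const _)

lemma WSm (a : Fin n → ℝ) (i : Fin n) : Sm (fun y => WW E a y i) := M.sm.mul (M.cSm a i)

lemma WW_eq (a : Fin n → ℝ) {y : Fin n → ℝ} (hy : y ≠ 0) (i : Fin n) :
    ∑ j, d j (d i E) y * WW E a y j = E y * a i := by
  have h1 : gM E y *ᵥ ((gM E y)⁻¹ *ᵥ a) = a := by
    rw [mulVec_mulVec, M.mul_inv hy, one_mulVec]
  have h2 := congrFun h1 i
  conv_rhs => rw [← h2]
  simp only [mulVec, dotProduct, gM, of_apply, WW] at h2 ⊢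
  rw [mul_sum]
  exact sum_congr rfl fun j _ => by ring

/-- if the Cartan tensor vanishes, the third derivatives of the conformal field vanish -/
lemma WW3 (a : Fin n → ℝ) (hC : ∀ y, y ≠ 0 → ∀ i j k, d k (d j (d i E)) y = 0) {y : Fin n → ℝ} (hy : y ≠ 0)
    (i j k l : Fin n) : d j (d k (d l fun y => WW E a y i)) y = 0 := by
  have hC' : ∀ z, z ≠ 0 → ∀ p, CM E p z = 0 := fun z hz p => by
    ext i j
    exact hC z hz i j p
  have h1 : ∀ p, ∀ z, z ≠ 0 → d p (fun y => ((gM E y)⁻¹ *ᵥ a) i) z = 0 := by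
    intro p z hz
    have h2 := M.hM_line hz (Pi.single p (1 : ℝ) : Fin n → ℝ)
    have h3 : ∑ q, (Pi.single p (1 : ℝ) : Fin n → ℝ) q • CM E q z = 0 :=
      sum_eq_zero fun q _ => by rw [hC' z hz q, smul_zero]
    rw [h3] at h2
    have h4 : HasDerivAt (fun s : ℝ => (fun y => ((gM E y)⁻¹ *ᵥ a) i)
        (z + s • (Pi.single p (1 : ℝ) : Fin n → ℝ))) (∑ j, (0 : ℝ) * a j) 0 := by
      simp only [mulVec, dotProduct]
      refine HasDerivAt.fun_sum fun j _ => ?_
      have h5 := (h2 i j).mul_const (a j)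
      refine h5.congr_deriv ?_
      simp
    rw [((M.cSm a i).dir hz p).unique h4]
    simp
  have g1 : ∀ z, z ≠ 0 → d l (fun y => WW E a y i) z = d l E z * ((gM E z)⁻¹ *ᵥ a) i := by
    intro z hz
    have := d_mul M.sm (M.cSm a i) hz l
    rw [h1 l z hz, mul_zero, add_zero] at this
    exact this
  have g2 : ∀ z, z ≠ 0 → d k (d l fun y => WW E a y i) z = d k (d l E) z * ((gM E z)⁻¹ *ᵥ a) i := by
    intro z hz
    rw [d_congr g1 hz k, d_mul (M.sm.d l) (M.cSm a i) hz k, h1 k z hz, mul_zero, add_zero]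
  rw [d_congr g2 hy j, d_mul ((M.sm.d l).d k) (M.cSm a i) hy j, h1 j y hy, hC y hy l k j]
  ring

/-- if the Cartan tensor vanishes, the norm is Euclidean -/
lemma quad (hn : 2 ≤ n) (hC : ∀ y, y ≠ 0 → ∀ i j k, d k (d j (d i E)) y = 0) :
    ∃ A : Matrix (Fin n) (Fin n) ℝ, A.PosDef ∧ ∀ y, y ≠ 0 → 2 * E y = ∑ i, ∑ j, A i j * y i * y j := by
  obtain ⟨y₀, hy₀⟩ : ∃ y : Fin n → ℝ, y ≠ 0 := by
    refine ⟨fun _ => 1, fun h => ?_⟩
    have := congrFun h ⟨0, by omega⟩
    simp at this
  have hconn : IsPreconnected {y : Fin n → ℝ | y ≠ 0} := by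
    have hrank : 1 < Module.rank ℝ (Fin n → ℝ) := by
      rw [rank_fun']
      simp
      omega
    exact (isConnected_compl_singleton_of_one_lt_rank hrank 0).isPreconnected
  have hconst : ∀ i j, ∀ y, y ≠ 0 → gM E y i j = gM E y₀ i j := by
    intro i j y hy
    have h1 : ∀ z ∈ {y : Fin n → ℝ | y ≠ 0}, fderiv ℝ (fun y => gM E y i j) z = 0 := by
      intro z hz
      ext w
      rw [fderiv_apply_eq]
      simp only [_root_.zero_apply]
      exact sum_eq_zero fun p _ => by
        have : d p (fun y => gM E y i j) z = 0 := hC z hz i j p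
        rw [this, mul_zero]
    exact isOpen0.is_const_of_fderiv_eq_zero hconn
      (fun z hz => ((M.gSm i j).diff hz).differentiableWithinAt) h1 hy hy₀
  refine ⟨gM E y₀, ?_, fun y hy => ?_⟩
  · refine PosDef.of_dotProduct_mulVec_pos ?_ fun v hv => ?_
    · rw [IsHermitian, conjTranspose_eq_transpose_of_trivial, M.gM_symm hy₀]
    · have := M.pd y₀ hy₀ v hv
      refine this.trans_eq ?_
      simp only [dotProduct, mulVec, star_trivial]
      refine sum_congr rfl fun i _ => ?_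
      rw [mul_sum]
      exact sum_congr rfl fun j _ => by simp only [gM, of_apply]; ring
  · rw [← M.eu1 hy]
    refine sum_congr rfl fun i _ => ?_
    rw [← M.eu2 hy i, mul_sum]
    refine sum_congr rfl fun j _ => ?_
    rw [← hconst i j y hy]
    simp only [gM, of_apply]
    ring

end Mink

section

variable {U : Set (Fin n → ℝ)} {F : (Fin n → ℝ) → (Fin n → ℝ) → ℝ} (hU : IsOpen U) (hF : IsFinslerOn U F)
  {σ : (Fin n → ℝ) → ℝ} (hσ : ContDiffOn ℝ ∞ σ U)

/-- the conformal change -/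
noncomputable def conf (σ : (Fin n → ℝ) → ℝ) (F : (Fin n → ℝ) → (Fin n → ℝ) → ℝ) :
    (Fin n → ℝ) → (Fin n → ℝ) → ℝ := fun x y => Real.exp (σ x) * F x y

lemma conf_sq (x y : Fin n → ℝ) : conf σ F x y ^ 2 = Real.exp (2 * σ x) * F x y ^ 2 := by
  unfold conf
  rw [mul_pow, ← Real.exp_nat_mul]
  norm_num

lemma conf_fund (x y : Fin n → ℝ) (i j : Fin n) :
    fund (conf σ F) x y i j = Real.exp (2 * σ x) * fund F x y i j := by
  have h1 : (fun u => conf σ F x u ^ 2) = fun u => Real.exp (2 * σ x) * F x u ^ 2 := by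
    funext u
    exact conf_sq x u
  have h2 : d j (fun u => conf σ F x u ^ 2) = fun y => Real.exp (2 * σ x) * d j (fun u => F x u ^ 2) y := by
    rw [h1]
    funext z
    exact d_cmul _ _ _ _
  have h3 : fund (conf σ F) x y i j = 1 / 2 * d i (d j (fun u => conf σ F x u ^ 2)) y := rfl
  rw [h3, h2, d_cmul]
  have h4 : fund F x y i j = 1 / 2 * d i (d j (fun u => F x u ^ 2)) y := rfl
  rw [h4]
  ring

lemma fund_gM (x y : Fin n → ℝ) (hs : (gM (En F x) y)ᵀ = gM (En F x) y) :
    Matrix.of (fund F x y) = gM (En F x) y := by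
  rw [← hs]
  ext i j
  simp only [of_apply, transpose_apply, gM]
  exact fund_eq x y i j

lemma spr_eq (x y : Fin n → ℝ) (hs : (gM (En F x) y)ᵀ = gM (En F x) y) :
    spr F x y = (gM (En F x) y)⁻¹ *ᵥ fun l => RR F x l y := by
  rw [← fund_gM x y hs]
  rfl

include hU hF hσ

/-- the conformal change of the right hand side -/
lemma conf_RR {x y : Fin n → ℝ} (hx : x ∈ U) (hy : y ≠ 0) (l : Fin n) :
    RR (conf σ F) x l y = Real.exp (2 * σ x) * (RR F x l y
      + lin (fun k => d k σ x) y * d l (En F x) y - En F x y * d l σ x) := by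
  obtain ⟨ρ, hρ⟩ : ∃ ρ : (Fin n → ℝ) → ℝ, ρ = fun z => Real.exp (2 * σ z) := ⟨_, rfl⟩
  have hσd : DifferentiableAt ℝ σ x := (hσ.contDiffAt (hU.mem_nhds hx)).differentiableAt (by simp)
  have hρd : HasFDerivAt ρ (ρ x • ((2 : ℝ) • fderiv ℝ σ x)) x := by
    rw [hρ]
    exact (hσd.hasFDerivAt.const_mul 2).exp
  have hprod : ∀ (ψ : (Fin n → ℝ) → ℝ), DifferentiableAt ℝ ψ x → ∀ k,
      d k (fun z => ρ z * ψ z) x = 2 * d k σ x * ρ x * ψ x + ρ x * d k ψ x := by
    intro ψ hψ k
    have h1 := (hρd.mul hψ.hasFDerivAt).fderiv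
    have h2 : (fun z => ρ z * ψ z) = ρ * ψ := rfl
    unfold d
    rw [h2, h1]
    simp only [_root_.add_apply, _root_.smul_apply, smul_eq_mul]
    ring
  have h1 : ∀ z, ∀ k, d k (fun u => conf σ F z u ^ 2) y = ρ z * d k (fun u => F z u ^ 2) y := by
    intro z k
    have : (fun u => conf σ F z u ^ 2) = fun u => ρ z * F z u ^ 2 := by
      funext u
      rw [hρ]
      exact conf_sq z u
    rw [this]
    exact d_cmul _ _ _ _
  have h2 : (fun z => conf σ F z y ^ 2) = fun z => ρ z * F z y ^ 2 := by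
    funext z
    rw [hρ]
    exact conf_sq z y
  have hdz : DifferentiableAt ℝ (fun z => F z y ^ 2) x := by
    have h3 : HasFDerivAt (fun p : (Fin n → ℝ) × (Fin n → ℝ) => F p.1 p.2 ^ 2)
        (fderiv ℝ (fun p : (Fin n → ℝ) × (Fin n → ℝ) => F p.1 p.2 ^ 2) (x, y)) (x, y) :=
      (((HSm hF).contDiffAt ((opn hU).mem_nhds (mem_pr hx hy))).differentiableAt (by simp)).hasFDerivAt
    have h4 : HasFDerivAt (fun u : Fin n → ℝ => (u, y)) (ContinuousLinearMap.inl ℝ (Fin n → ℝ) (Fin n → ℝ)) x :=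
      hasFDerivAt_prodMk_left x y
    exact (h3.comp x h4).differentiableAt
  have hE : ∀ l, d l (fun u => F x u ^ 2) y = 2 * d l (En F x) y := by
    intro l
    have : d l (En F x) y = 1 / 2 * d l (fun u => F x u ^ 2) y := d_cmul _ _ _ _
    rw [this]
    ring
  have hE' : F x y ^ 2 = 2 * En F x y := by
    unfold En
    ring
  have hρx : Real.exp (2 * σ x) = ρ x := by rw [hρ]
  rw [hρx]
  unfold RR
  rw [h2, hprod _ hdz l]
  have h5 : ∀ k, d k (fun z => d l (fun u => conf σ F z u ^ 2) y) x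
      = 2 * d k σ x * ρ x * d l (fun u => F x u ^ 2) y + ρ x * d k (fun z => d l (fun u => F z u ^ 2) y) x := by
    intro k
    have h6 : (fun z => d l (fun u => conf σ F z u ^ 2) y) = fun z => ρ z * d l (fun u => F z u ^ 2) y := by
      funext z
      exact h1 z l
    rw [h6]
    exact hprod _ (dxy_eq hU hF hx hy k l).1 k
  simp only [h5, hE, hE']
  have h7 : ∑ k, (2 * d k σ x * ρ x * (2 * d l (En F x) y)
      + ρ x * d k (fun z => d l (fun u => F z u ^ 2) y) x) * y k
      = 4 * ρ x * d l (En F x) y * lin (fun k => d k σ x) y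
        + ρ x * ∑ k, d k (fun z => d l (fun u => F z u ^ 2) y) x * y k := by
    unfold lin
    rw [mul_sum, mul_sum, ← sum_add_distrib]
    exact sum_congr rfl fun k _ => by ring
  rw [h7]
  ring

/-- the conformal change of the spray -/
lemma conf_spr {x y : Fin n → ℝ} (hx : x ∈ U) (hy : y ≠ 0) (i : Fin n) :
    spr (conf σ F) x y i = spr F x y i + lin (fun k => d k σ x) y * y i
      - WW (En F x) (fun k => d k σ x) y i := by
  obtain ⟨ρ, hρ⟩ : ∃ ρ : ℝ, ρ = Real.exp (2 * σ x) := ⟨_, rfl⟩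
  have hρ0 : ρ ≠ 0 := by rw [hρ]; exact (Real.exp_pos _).ne'
  have M := mink hF hx
  have h1 : spr (conf σ F) x y = (ρ • gM (En F x) y)⁻¹ *ᵥ fun l => RR (conf σ F) x l y := by
    have : Matrix.of (fund (conf σ F) x y) = ρ • gM (En F x) y := by
      rw [← fund_gM x y (M.gM_symm hy)]
      ext i j
      simp only [of_apply, Matrix.smul_apply, smul_eq_mul]
      rw [conf_fund, hρ]
    rw [← this]
    rfl
  have h2 : (ρ • gM (En F x) y)⁻¹ = ρ⁻¹ • (gM (En F x) y)⁻¹ := by
    refine inv_eq_right_inv ?_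
    rw [smul_mul_smul_comm, mul_inv_cancel₀ hρ0, one_smul, M.mul_inv hy]
  have h3 : (fun l => RR (conf σ F) x l y) = ρ • ((fun l => RR F x l y)
      + (lin (fun k => d k σ x) y • (fun l => d l (En F x) y) - En F x y • fun l => d l σ x)) := by
    funext l
    rw [conf_RR hU hF hσ hx hy l, ← hρ]
    simp only [Pi.smul_apply, Pi.add_apply, Pi.sub_apply, smul_eq_mul]
    ring
  have h4 : (gM (En F x) y)⁻¹ *ᵥ (fun l => d l (En F x) y) = y := by
    have h5 : gM (En F x) y *ᵥ y = fun j => d j (En F x) y := by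
      ext j
      simp only [mulVec, dotProduct, gM, of_apply]
      rw [← M.eu2 hy j]
      exact sum_congr rfl fun i _ => by ring
    rw [← h5, mulVec_mulVec, M.inv_mul hy, one_mulVec]
  rw [h1, h2, h3, smul_mulVec, mulVec_smul, smul_smul, inv_mul_cancel₀ hρ0, one_smul, mulVec_add, mulVec_sub,
    mulVec_smul, mulVec_smul, h4, spr_eq x y (M.gM_symm hy)]
  simp only [Pi.add_apply, Pi.sub_apply, Pi.smul_apply, smul_eq_mul, WW]
  ring

omit hσ in
lemma sprSm {x : Fin n → ℝ} (hx : x ∈ U) (i : Fin n) : Sm (fun y => spr F x y i) := by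
  have M := mink hF hx
  have h1 : Sm (fun y => ∑ l, (gM (En F x) y)⁻¹ i l * RR F x l y) :=
    Sm.sum fun l _ => (M.hSm i l).mul (RSm hU hF hx l)
  refine h1.congr fun y hy => ?_
  rw [spr_eq x y (M.gM_symm hy)]
  rfl

/-- the conformal change of the Berwald curvature -/
lemma conf_ber {x y : Fin n → ℝ} (hx : x ∈ U) (hy : y ≠ 0) (i j k l : Fin n) :
    ber (conf σ F) x y i j k l = ber F x y i j k l
      - d j (d k (d l fun y => WW (En F x) (fun k => d k σ x) y i)) y := by
  have M := mink hF hx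
  obtain ⟨a, ha⟩ : ∃ a : Fin n → ℝ, a = fun k => d k σ x := ⟨_, rfl⟩
  have h0 : ber (conf σ F) x y i j k l = d j (d k (d l fun u => spr (conf σ F) x u i)) y := rfl
  have h0' : ber F x y i j k l = d j (d k (d l fun u => spr F x u i)) y := rfl
  rw [h0, h0', ← ha]
  have hS := sprSm hU hF hx i
  have hW := M.WSm a i
  have hq : Sm (fun y => lin a y * y i) := (lin_sm a).mul (Sm.coord i)
  have hW' : Sm (fun y => (-1 : ℝ) * WW (En F x) a y i) := (Sm.const _).mul hW
  have e0 : ∀ z, z ≠ 0 → spr (conf σ F) x z i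
      = (spr F x z i + lin a z * z i) + (-1) * WW (En F x) a z i := by
    intro z hz
    rw [conf_spr hU hF hσ hx hz i, ha]
    ring
  have e1 : ∀ z, z ≠ 0 → d l (fun u => spr (conf σ F) x u i) z
      = (d l (fun u => spr F x u i) z + d l (fun z => lin a z * z i) z)
        + (-1) * d l (fun z => WW (En F x) a z i) z := by
    intro z hz
    rw [d_congr e0 hz l, d_add (hS.add hq) hW' hz, d_add hS hq hz, d_cmul]
  have e2 : ∀ z, z ≠ 0 → d k (d l (fun u => spr (conf σ F) x u i)) z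
      = (d k (d l (fun u => spr F x u i)) z + d k (d l (fun z => lin a z * z i)) z)
        + (-1) * d k (d l (fun z => WW (En F x) a z i)) z := by
    intro z hz
    rw [d_congr e1 hz k, d_add ((hS.d l).add (hq.d l)) ((Sm.const _).mul (hW.d l)) hz,
      d_add (hS.d l) (hq.d l) hz, d_cmul]
  rw [d_congr e2 hy j, d_add (((hS.d l).d k).add ((hq.d l).d k)) ((Sm.const _).mul ((hW.d l).d k)) hy,
    d_add ((hS.d l).d k) ((hq.d l).d k) hy, d_cmul, d3_quad a i j k l hy]
  ring

omit hU hσ in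
lemma lan_eq {x y : Fin n → ℝ} (hx : x ∈ U) (hy : y ≠ 0) (j k l : Fin n) :
    lan F x y j k l = -(1 / 2) * ∑ i, d i (En F x) y * ber F x y i j k l := by
  have M := mink hF hx
  unfold lan
  congr 1
  refine sum_congr rfl fun i _ => ?_
  rw [← sum_mul]
  congr 1
  rw [← M.eu2 hy i]
  refine sum_congr rfl fun m _ => ?_
  rw [fund_eq, d_comm M.sm hy i m]
  ring

omit hU hσ in
lemma lan_conf_eq {x y : Fin n → ℝ} (hx : x ∈ U) (hy : y ≠ 0) (j k l : Fin n) :
    lan (conf σ F) x y j k l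
      = -(1 / 2) * (Real.exp (2 * σ x) * ∑ i, d i (En F x) y * ber (conf σ F) x y i j k l) := by
  have M := mink hF hx
  unfold lan
  congr 1
  rw [mul_sum]
  refine sum_congr rfl fun i _ => ?_
  rw [← sum_mul, ← mul_assoc]
  congr 1
  rw [← M.eu2 hy i, mul_sum]
  refine sum_congr rfl fun m _ => ?_
  rw [conf_fund, fund_eq, d_comm M.sm hy i m]
  ring

/-- conformal Landsberg metrics -/
theorem main (hL : ∀ x ∈ U, ∀ y, y ≠ 0 → ∀ j k l, lan F x y j k l = 0)
    (hL' : ∀ x ∈ U, ∀ y, y ≠ 0 → ∀ j k l, lan (conf σ F) x y j k l = 0) {x : Fin n → ℝ} (hx : x ∈ U) :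
    (fderiv ℝ σ x ≠ 0 → (∀ y, y ≠ 0 → ∀ i j k, cart F x y i j k = 0) ∧
      (2 ≤ n → ∃ A : Matrix (Fin n) (Fin n) ℝ, A.PosDef ∧
        ∀ y, y ≠ 0 → F x y ^ 2 = ∑ i, ∑ j, A i j * y i * y j)) ∧
    ∀ y, y ≠ 0 → ∀ i j k l, ber (conf σ F) x y i j k l = ber F x y i j k l := by
  have M := mink hF hx
  obtain ⟨a, ha⟩ : ∃ a : Fin n → ℝ, a = fun k => d k σ x := ⟨_, rfl⟩
  have hber : ∀ y, y ≠ 0 → ∀ i j k l, ber (conf σ F) x y i j k l = ber F x y i j k l
      - d j (d k (d l fun y => WW (En F x) a y i)) y := by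
    intro y hy i j k l
    rw [ha]
    exact conf_ber hU hF hσ hx hy i j k l
  have key : a ≠ 0 → ∀ y, y ≠ 0 → ∀ i j k, d k (d j (d i (En F x))) y = 0 := by
    intro ha0 y hy i j k
    refine M.cartan_zero (W := fun y => WW (En F x) a y) (M.WSm a) (fun y hy i => M.WW_eq a hy i) ?_ ha0 hy i j k
    intro y hy j k l
    have h1 := hL x hx y hy j k l
    have h2 := hL' x hx y hy j k l
    rw [lan_eq hF hx hy] at h1
    rw [lan_conf_eq hF hx hy] at h2
    have h3 : ∑ i, d i (En F x) y * ber F x y i j k l = 0 := by linarith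
    have h4 : ∑ i, d i (En F x) y * ber (conf σ F) x y i j k l = 0 := by
      have h5 : Real.exp (2 * σ x) * ∑ i, d i (En F x) y * ber (conf σ F) x y i j k l = 0 := by linarith
      exact (mul_eq_zero.1 h5).resolve_left (Real.exp_pos _).ne'
    have h5 : ∑ i, d i (En F x) y * ber (conf σ F) x y i j k l
        = ∑ i, d i (En F x) y * ber F x y i j k l
          - ∑ i, d i (En F x) y * d j (d k (d l fun y => WW (En F x) a y i)) y := by
      rw [← sum_sub_distrib]
      exact sum_congr rfl fun i _ => by rw [hber y hy]; ring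
    rw [h3, h4] at h5
    linarith
  refine ⟨fun hne => ?_, fun y hy i j k l => ?_⟩
  · have ha0 : a ≠ 0 := by
      intro h
      apply hne
      ext w
      rw [fderiv_apply_eq]
      simp only [_root_.zero_apply]
      refine sum_eq_zero fun i _ => ?_
      have := congrFun h i
      rw [ha] at this
      simp only [Pi.zero_apply] at this
      rw [this, mul_zero]
    have hC := key ha0
    refine ⟨fun y hy i j k => ?_, fun hn => ?_⟩
    · have h1 : (fun u => fund F x u i j) = d i (d j (En F x)) := by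
        funext u
        exact fund_eq x u i j
      have h2 : cart F x y i j k = 1 / 2 * d k (fun u => fund F x u i j) y := rfl
      rw [h2, h1, hC y hy j i k, mul_zero]
    · obtain ⟨A, hA, hA'⟩ := M.quad hn hC
      refine ⟨A, hA, fun y hy => ?_⟩
      rw [← hA' y hy]
      unfold En
      ring
  · rw [hber y hy]
    by_cases ha0 : a = 0
    · have h1 : (fun y => WW (En F x) a y i) = fun _ => 0 := by
        funext y
        simp [WW, ha0]
      have h2 : d l (fun _ : Fin n → ℝ => (0 : ℝ)) = fun _ => 0 := by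
        funext z
        exact d_const 0 z l
      have h3 : d k (fun _ : Fin n → ℝ => (0 : ℝ)) = fun _ => 0 := by
        funext z
        exact d_const 0 z k
      rw [h1, h2, h3, d_const, sub_zero]
    · rw [M.WW3 a (key ha0) hy, sub_zero]

end

end Pool.Agent.Q145.LB
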