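import Pool.Agent.Q145.LB.Max

/-! Matrix calculus along a line. -/

set_option autoImplicit false

namespace Pool.Agent.Q145.LB

open Finset Matrix

variable {n : ℕ}

/-- entrywise derivative at 0 -/
def MD (A : ℝ → Matrix (Fin n) (Fin n) ℝ) (A' : Matrix (Fin n) (Fin n) ℝ) : Prop :=
  ∀ i j, HasDerivAt (fun t => A t i j) (A' i j) 0

lemma MD.mul {A B : ℝ → Matrix (Fin n) (Fin n) ℝ} {A' B' : Matrix (Fin n) (Fin n) ℝ} (hA : MD A A')
    (hB : MD B B') : MD (fun t => A t * B t) (A' * B 0 + A 0 * B') := by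
  intro i j
  have h : HasDerivAt (fun t => ∑ k, A t i k * B t k j) (∑ k, (A' i k * B 0 k j + A 0 i k * B' k j)) 0 :=
    HasDerivAt.fun_sum fun k _ => (hA i k).mul (hB k j)
  refine h.congr_deriv ?_
  simp [Matrix.mul_apply, sum_add_distrib]

lemma MD.trace {A : ℝ → Matrix (Fin n) (Fin n) ℝ} {A' : Matrix (Fin n) (Fin n) ℝ} (hA : MD A A') :
    HasDerivAt (fun t => (A t).trace) A'.trace 0 :=
  HasDerivAt.fun_sum fun i _ => hA i i

lemma MD.inv {g h : ℝ → Matrix (Fin n) (Fin n) ℝ} {g' h' : Matrix (Fin n) (Fin n) ℝ} (hg : MD g g')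
    (hh : MD h h') (e : ∀ᶠ t in nhds 0, g t * h t = 1) (e0 : h 0 * g 0 = 1) : h' = -(h 0 * g' * h 0) := by
  have h1 := hg.mul hh
  have h2 : g' * h 0 + g 0 * h' = 0 := by
    ext i j
    have h3 : HasDerivAt (fun _ : ℝ => (1 : Matrix (Fin n) (Fin n) ℝ) i j) 0 0 := hasDerivAt_const _ _
    refine (h1 i j).unique (h3.congr_of_eventuallyEq ?_)
    filter_upwards [e] with t ht
    rw [ht]
  have h4 : h 0 * (g' * h 0 + g 0 * h') = h 0 * g' * h 0 + h' := by
    rw [mul_add, ← mul_assoc, ← mul_assoc, e0, one_mul]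
  rw [h2, mul_zero] at h4
  rw [eq_neg_iff_add_eq_zero, add_comm]
  exact h4.symm

lemma tr_vec {y W : Fin n → ℝ} {N : Matrix (Fin n) (Fin n) ℝ} (hN : y ᵥ* N = 0) :
    vecMulVec W y * N = 0 := by
  rw [vecMulVec_mul, hN]
  ext i j
  simp [vecMulVec_apply]

/-- the common step -/
lemma core_trace {h N M N' h' : Matrix (Fin n) (Fin n) ℝ} {W y : Fin n → ℝ} {f c : ℝ} (hh : hᵀ = h)
    (hN : Nᵀ = N) (hNy : y ᵥ* N = 0) (h'eq : h' = M * h - c • vecMulVec W y)
    (N'eq : N' = -(f • N) - (1 / 2 : ℝ) • (Mᵀ * N + N * M)) :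
    (h' * N + h * N').trace = -f * (h * N).trace := by
  have e1 : (h' * N).trace = (M * h * N).trace := by
    rw [h'eq, sub_mul, smul_mul_assoc, tr_vec hNy, smul_zero, sub_zero]
  have e2 : (h * (Mᵀ * N)).trace = (M * h * N).trace := by
    rw [← trace_transpose]
    rw [transpose_mul, transpose_mul, transpose_transpose, hh, hN, mul_assoc N, trace_mul_comm]
  have e3 : (h * (N * M)).trace = (M * h * N).trace := by
    rw [← mul_assoc, trace_mul_comm, ← mul_assoc]
  rw [trace_add, e1, N'eq, mul_sub, mul_neg, mul_smul_comm, mul_smul_comm, mul_add, trace_sub, trace_neg,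
    trace_smul, trace_smul, trace_add, e2, e3]
  simp only [smul_eq_mul]
  ring

/-- the derivative of the mean Cartan form -/
lemma core_I {h M h' : Matrix (Fin n) (Fin n) ℝ} {C C' : Fin n → Matrix (Fin n) (Fin n) ℝ} {W y : Fin n → ℝ}
    {f c : ℝ} (hh : hᵀ = h) (hC : ∀ k, (C k)ᵀ = C k) (hCy : ∀ k, y ᵥ* C k = 0)
    (h'eq : h' = M * h - c • vecMulVec W y)
    (C'eq : ∀ k, C' k = -((1 / 2 : ℝ) • (f • C k + Mᵀ * C k + C k * M + ∑ p, M p k • C p))) (k : Fin n) :
    (h' * C k + h * C' k).trace = -(1 / 2) * (f * (h * C k).trace + ∑ p, M p k * (h * C p).trace) := by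
  have e1 : (h' * C k).trace = (M * h * C k).trace := by
    rw [h'eq, sub_mul, smul_mul_assoc, tr_vec (hCy k), smul_zero, sub_zero]
  have e2 : (h * (Mᵀ * C k)).trace = (M * h * C k).trace := by
    rw [← trace_transpose]
    rw [transpose_mul, transpose_mul, transpose_transpose, hh, hC, mul_assoc (C k), trace_mul_comm]
  have e3 : (h * (C k * M)).trace = (M * h * C k).trace := by
    rw [← mul_assoc, trace_mul_comm, ← mul_assoc]
  have e4 : (h * ∑ p, M p k • C p).trace = ∑ p, M p k * (h * C p).trace := by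
    rw [mul_sum, trace_sum]
    exact sum_congr rfl fun p _ => by rw [mul_smul_comm, trace_smul, smul_eq_mul]
  rw [trace_add, e1, C'eq, mul_neg, mul_smul_comm, trace_neg, trace_smul, mul_add, mul_add, mul_add, trace_add,
    trace_add, trace_add, mul_smul_comm, trace_smul, e2, e3, e4]
  simp only [smul_eq_mul]
  ring

/-- the derivative of the Cartan norm form -/
lemma core_N {h M h' : Matrix (Fin n) (Fin n) ℝ} {C C' : Fin n → Matrix (Fin n) (Fin n) ℝ} {W y : Fin n → ℝ}
    {f c : ℝ} (hh : hᵀ = h) (hC : ∀ k, (C k)ᵀ = C k) (hCy : ∀ k, y ᵥ* C k = 0)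
    (h'eq : h' = M * h - c • vecMulVec W y)
    (C'eq : ∀ k, C' k = -((1 / 2 : ℝ) • (f • C k + Mᵀ * C k + C k * M + ∑ p, M p k • C p))) (k l : Fin n) :
    ((h' * C k + h * C' k) * (h * C l) + (h * C k) * (h' * C l + h * C' l)).trace =
      -f * (h * C k * (h * C l)).trace - (1 / 2) * (∑ p, M p k * (h * C p * (h * C l)).trace
        + ∑ p, M p l * (h * C k * (h * C p)).trace) := by
  have a1 : ∀ k, h' * C k = M * h * C k := by
    intro k
    rw [h'eq, sub_mul, smul_mul_assoc, tr_vec (hCy k), smul_zero, sub_zero]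
  have e1 : (M * h * C k * (h * C l)).trace = (M * h * C k * (h * C l)).trace := rfl
  -- X k l = tr (M h C_k h C_l)
  have e2 : (h * C k * (M * h * C l)).trace = (M * h * C l * (h * C k)).trace := trace_mul_comm _ _
  have e3 : (h * (Mᵀ * C k) * (h * C l)).trace = (M * h * C l * (h * C k)).trace := by
    rw [← trace_transpose]
    simp only [transpose_mul, transpose_transpose, hh, hC]
    -- C l * h * (C k * M * h)
    rw [show C l * h * (C k * M * h) = (C l * h * C k) * (M * h) by simp only [mul_assoc]]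
    rw [trace_mul_comm]
    simp only [mul_assoc]
  have e4 : (h * (C k * M) * (h * C l)).trace = (M * h * C l * (h * C k)).trace := by
    rw [show h * (C k * M) * (h * C l) = (h * C k) * (M * h * C l) by simp only [mul_assoc]]
    rw [trace_mul_comm]
  have e5 : (h * (∑ p, M p k • C p) * (h * C l)).trace = ∑ p, M p k * (h * C p * (h * C l)).trace := by
    rw [mul_sum, sum_mul, trace_sum]
    exact sum_congr rfl fun p _ => by rw [mul_smul_comm, smul_mul_assoc, trace_smul, smul_eq_mul]
  have e6 : (h * C k * (h * (Mᵀ * C l))).trace = (M * h * C k * (h * C l)).trace := by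
    rw [← trace_transpose]
    simp only [transpose_mul, transpose_transpose, hh, hC]
    -- C l * M * h * (C k * h)
    rw [show C l * M * h * (C k * h) = C l * (M * h * C k * h) by simp only [mul_assoc]]
    rw [trace_mul_comm]
    simp only [mul_assoc]
  have e7 : (h * C k * (h * (C l * M))).trace = (M * h * C k * (h * C l)).trace := by
    rw [show h * C k * (h * (C l * M)) = (h * C k * (h * C l)) * M by simp only [mul_assoc]]
    rw [trace_mul_comm]
    simp only [mul_assoc]
  have e8 : (h * C k * (h * ∑ p, M p l • C p)).trace = ∑ p, M p l * (h * C k * (h * C p)).trace := by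
    rw [mul_sum, mul_sum, trace_sum]
    exact sum_congr rfl fun p _ => by rw [mul_smul_comm, mul_smul_comm, trace_smul, smul_eq_mul]
  rw [add_mul, mul_add, trace_add, trace_add, trace_add, a1, a1, e2]
  have f1 : (h * C' k * (h * C l)).trace = -(1 / 2) * (f * (h * C k * (h * C l)).trace
      + (M * h * C l * (h * C k)).trace + (M * h * C l * (h * C k)).trace
      + ∑ p, M p k * (h * C p * (h * C l)).trace) := by
    rw [C'eq, mul_neg, mul_smul_comm, neg_mul, smul_mul_assoc, trace_neg, trace_smul, mul_add, mul_add, mul_add,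
      add_mul, add_mul, add_mul, trace_add, trace_add, trace_add, mul_smul_comm, smul_mul_assoc, trace_smul,
      e3, e4, e5]
    simp only [smul_eq_mul]
    ring
  have f2 : (h * C k * (h * C' l)).trace = -(1 / 2) * (f * (h * C k * (h * C l)).trace
      + (M * h * C k * (h * C l)).trace + (M * h * C k * (h * C l)).trace
      + ∑ p, M p l * (h * C k * (h * C p)).trace) := by
    rw [C'eq, mul_neg, mul_smul_comm, mul_neg, mul_smul_comm, trace_neg, trace_smul, mul_add, mul_add, mul_add,
      mul_add, mul_add, mul_add, trace_add, trace_add, trace_add, mul_smul_comm, mul_smul_comm, trace_smul,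
      e6, e7, e8]
    simp only [smul_eq_mul]
    ring
  rw [f1, f2]
  ring

/-- a second derivative test: the trace against a positive form -/
lemma trace_pos {B H : Matrix (Fin n) (Fin n) ℝ} :
    (Bᵀ * B * H).trace = ∑ q, ∑ i, ∑ j, B q i * B q j * H i j := by
  rw [mul_assoc, trace_mul_comm, Matrix.trace]
  refine sum_congr rfl fun q _ => ?_
  simp only [Matrix.diag_apply, Matrix.mul_apply, Matrix.transpose_apply]
  rw [sum_comm]
  rw [sum_comm]
  rw [sum_comm]
  refine sum_congr rfl fun j _ => ?_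
  rw [sum_mul]
  refine sum_congr rfl fun i _ => ?_
  ring

/-- the norm of a symmetric matrix in a positive metric -/
lemma trace_sq {B C : Matrix (Fin n) (Fin n) ℝ} (hC : Cᵀ = C) :
    (Bᵀ * B * C * (Bᵀ * B * C)).trace = ∑ p, ∑ q, ((B * C * Bᵀ) p q) ^ 2 := by
  have h1 : (Bᵀ * B * C * (Bᵀ * B * C)).trace = ((B * C * Bᵀ) * (B * C * Bᵀ)ᵀ).trace := by
    rw [transpose_mul, transpose_mul, transpose_transpose, hC]
    rw [show Bᵀ * B * C * (Bᵀ * B * C) = Bᵀ * (B * C * Bᵀ * (B * C)) by simp only [mul_assoc]]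
    rw [trace_mul_comm]
    simp only [mul_assoc]
  rw [h1, Matrix.trace]
  refine sum_congr rfl fun p _ => ?_
  rw [Matrix.diag_apply, Matrix.mul_apply]
  exact sum_congr rfl fun q _ => by rw [Matrix.transpose_apply]; ring

end Pool.Agent.Q145.LB
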