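import Pool.Agent.Q145.LB.Bas

/-! A function of degree 0 which is constant along the conformal field of a linear function is constant. -/

set_option autoImplicit false

namespace Pool.Agent.Q145.LB

open Finset

variable {n : ℕ}

/-- a continuous function of degree zero has a maximum -/
lemma exists_max {Φ : (Fin n → ℝ) → ℝ} (hc : ContinuousOn Φ {y | y ≠ 0}) (h0 : Hom 0 Φ)
    (hn : ∃ y : Fin n → ℝ, y ≠ 0) : ∃ y, y ≠ 0 ∧ ∀ z, z ≠ 0 → Φ z ≤ Φ y := by
  have hS : IsCompact (Metric.sphere (0 : Fin n → ℝ) 1) := isCompact_sphere _ _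
  obtain ⟨y₀, hy₀⟩ := hn
  have hmem : ∀ z : Fin n → ℝ, z ≠ 0 → (‖z‖⁻¹ • z) ∈ Metric.sphere (0 : Fin n → ℝ) 1 := by
    intro z hz
    have : ‖z‖ ≠ 0 := norm_ne_zero_iff.2 hz
    simp [norm_smul, this]
  have hval : ∀ z : Fin n → ℝ, z ≠ 0 → Φ (‖z‖⁻¹ • z) = Φ z := by
    intro z hz
    have h1 : 0 < ‖z‖⁻¹ := inv_pos.2 (norm_pos_iff.2 hz)
    rw [h0 z hz _ h1]
    simp
  have hsub : Metric.sphere (0 : Fin n → ℝ) 1 ⊆ {y | y ≠ 0} := by
    intro z hz hz0
    rw [hz0] at hz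
    simp at hz
  obtain ⟨y, hy, hmax⟩ := hS.exists_isMaxOn ⟨_, hmem y₀ hy₀⟩ (hc.mono hsub)
  refine ⟨y, hsub hy, fun z hz => ?_⟩
  have := hmax (hmem z hz)
  rw [← hval z hz]
  exact this

/-- at a maximum line derivatives vanish -/
lemma deriv_max {Φ : (Fin n → ℝ) → ℝ} {y : Fin n → ℝ} (hy : y ≠ 0) (hmax : ∀ z, z ≠ 0 → Φ z ≤ Φ y)
    {w : Fin n → ℝ} {c : ℝ} (h : HasDerivAt (fun t : ℝ => Φ (y + t • w)) c 0) : c = 0 := by
  have h1 : IsLocalMax (fun t : ℝ => Φ (y + t • w)) 0 := by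
    filter_upwards [near hy w] with t ht
    simpa using hmax _ ht
  exact h1.hasDerivAt_eq_zero h

/-- half the square of a Minkowski norm -/
structure Mink (E : (Fin n → ℝ) → ℝ) : Prop where
  sm : Sm E
  hom : Hom 2 E
  pos : ∀ y, y ≠ 0 → 0 < E y
  pd : ∀ y, y ≠ 0 → ∀ v : Fin n → ℝ, v ≠ 0 → 0 < ∑ i, ∑ j, d j (d i E) y * v i * v j

namespace Mink

variable {E : (Fin n → ℝ) → ℝ} (M : Mink E)

include M

lemma eu1 {y : Fin n → ℝ} (hy : y ≠ 0) : ∑ i, y i * d i E y = 2 * E y := by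
  have := M.hom.euler M.sm hy
  simpa using this

lemma eu2 {y : Fin n → ℝ} (hy : y ≠ 0) (j : Fin n) : ∑ i, y i * d i (d j E) y = d j E y := by
  have := (M.hom.d j).euler (M.sm.d j) hy
  simpa using this

lemma eu2' {y : Fin n → ℝ} (hy : y ≠ 0) (j : Fin n) : ∑ i, d j (d i E) y * y i = d j E y := by
  rw [← M.eu2 hy j]
  exact sum_congr rfl fun i _ => by rw [d_comm M.sm hy j i]; ring

/-- the fundamental inequality -/
lemma fund {y z : Fin n → ℝ} (hy : y ≠ 0) (hz : z ≠ 0) (hne : y ≠ z) :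
    ∑ i, z i * d i E y < E y + E z := by
  by_cases hseg : ∃ t : ℝ, 0 ≤ t ∧ t ≤ 1 ∧ y + t • (z - y) = 0
  · obtain ⟨t, ht0, ht1, ht⟩ := hseg
    have ht2 : t ≠ 0 := by
      rintro rfl
      apply hy
      simpa using ht
    have htp : 0 < t := lt_of_le_of_ne ht0 (Ne.symm ht2)
    have h1 : ∀ i, t * z i = -((1 - t) * y i) := by
      intro i
      have := congrFun ht i
      simp only [Pi.add_apply, Pi.smul_apply, Pi.sub_apply, smul_eq_mul, Pi.zero_apply] at this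
      linarith
    have h2 : t * ∑ i, z i * d i E y = -((1 - t) * (2 * E y)) := by
      rw [← M.eu1 hy, mul_sum, mul_sum, ← sum_neg_distrib]
      refine sum_congr rfl fun i _ => ?_
      rw [← mul_assoc, h1]
      ring
    have h3 := M.pos y hy
    have h4 := M.pos z hz
    have h5 : t * ∑ i, z i * d i E y ≤ 0 := by
      rw [h2]
      have : 0 ≤ (1 - t) * (2 * E y) := mul_nonneg (by linarith) (by linarith)
      linarith
    have h6 : ∑ i, z i * d i E y ≤ 0 := by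
      by_contra h
      push Not at h
      have := mul_pos htp h
      linarith
    linarith
  · push Not at hseg
    obtain ⟨w, hw⟩ : ∃ w, w = z - y := ⟨_, rfl⟩
    rw [← hw] at hseg
    have hw0 : w ≠ 0 := by
      rw [hw]
      exact sub_ne_zero.2 (Ne.symm hne)
    have h1 : ∀ t : ℝ, 0 ≤ t → t ≤ 1 →
        HasDerivAt (fun s : ℝ => E (y + s • w)) (∑ i, w i * d i E (y + t • w)) t :=
      fun t h0 h1 => M.sm.line y w t (hseg t h0 h1)
    have h2 : ∀ t : ℝ, 0 ≤ t → t ≤ 1 →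
        HasDerivAt (fun s : ℝ => ∑ i, w i * d i E (y + s • w))
          (∑ i, w i * ∑ j, w j * d j (d i E) (y + t • w)) t := by
      intro t h0 h1
      exact HasDerivAt.fun_sum fun i _ => ((M.sm.d i).line y w t (hseg t h0 h1)).const_mul (w i)
    obtain ⟨c, hc, hc'⟩ := exists_hasDerivAt_eq_slope (fun s : ℝ => E (y + s • w))
      (fun t => ∑ i, w i * d i E (y + t • w)) (zero_lt_one)
      (fun t ht => (h1 t ht.1 ht.2).continuousAt.continuousWithinAt)
      (fun t ht => h1 t ht.1.le ht.2.le)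
    obtain ⟨c', hc2, hc2'⟩ := exists_hasDerivAt_eq_slope (fun s : ℝ => ∑ i, w i * d i E (y + s • w))
      (fun t => ∑ i, w i * ∑ j, w j * d j (d i E) (y + t • w)) (hc.1)
      (fun t ht => (h2 t ht.1 (ht.2.trans hc.2.le)).continuousAt.continuousWithinAt)
      (fun t ht => h2 t ht.1.le (ht.2.le.trans hc.2.le))
    have h3 : 0 < ∑ i, w i * ∑ j, w j * d j (d i E) (y + c' • w) := by
      have h4 := M.pd (y + c' • w) (hseg c' hc2.1.le (hc2.2.le.trans hc.2.le)) w hw0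
      refine h4.trans_eq (sum_congr rfl fun i _ => ?_)
      rw [mul_sum]
      exact sum_congr rfl fun j _ => by ring
    rw [hc2'] at h3
    have h5 := (div_pos_iff_of_pos_right (by linarith [hc.1] : (0 : ℝ) < c - 0)).1 h3
    simp only [zero_smul, add_zero] at h5 hc'
    have h6 : y + (1 : ℝ) • w = z := by
      rw [hw]
      simp
    rw [h6, sub_zero, div_one] at hc'
    have h7 : ∑ i, w i * d i E y = ∑ i, z i * d i E y - 2 * E y := by
      rw [← M.eu1 hy, ← sum_sub_distrib]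
      refine sum_congr rfl fun i _ => ?_
      rw [hw]
      simp only [Pi.sub_apply]
      ring
    rw [h7, hc'] at h5
    linarith

end Mink

/-- `f = a · y` -/
def lin (a y : Fin n → ℝ) : ℝ := ∑ i, a i * y i

lemma lin_smul (a y : Fin n → ℝ) (t : ℝ) : lin a (t • y) = t * lin a y := by
  unfold lin
  rw [mul_sum]
  exact sum_congr rfl fun i _ => by simp only [Pi.smul_apply, smul_eq_mul]; ring

lemma lin_line (a y w : Fin n → ℝ) (t : ℝ) : HasDerivAt (fun s : ℝ => lin a (y + s • w)) (lin a w) t := by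
  unfold lin
  refine HasDerivAt.fun_sum fun i _ => ?_
  have h1 : HasDerivAt (fun s : ℝ => (y + s • w) i) (w i) t := by
    have : HasDerivAt (fun s : ℝ => y i + s * w i) (w i) t := by
      simpa using ((hasDerivAt_id t).mul_const (w i)).const_add (y i)
    exact this
  exact h1.const_mul (a i)

lemma lin_sm (a : Fin n → ℝ) : Sm (lin a) := by
  unfold lin
  exact Sm.sum fun i _ => (Sm.const (a i)).mul (Sm.coord i)

/-- critical rays of `f / F` -/
def Crit (E : (Fin n → ℝ) → ℝ) (a y : Fin n → ℝ) : Prop := ∀ i, 2 * E y * a i = lin a y * d i E y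

namespace Mink

variable {E : (Fin n → ℝ) → ℝ} (M : Mink E) {a : Fin n → ℝ} {W : (Fin n → ℝ) → Fin n → ℝ}

include M

/-- `W` is the conformal field `E g⁻¹ a`; its derivative of `E` is `E f` -/
lemma dE (hW : ∀ y, y ≠ 0 → ∀ i, ∑ j, d j (d i E) y * W y j = E y * a i) {y : Fin n → ℝ} (hy : y ≠ 0) :
    ∑ i, W y i * d i E y = E y * lin a y := by
  have h1 : ∑ i, W y i * d i E y = ∑ i, ∑ j, y j * (d i (d j E) y * W y i) := by
    refine sum_congr rfl fun i _ => ?_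
    rw [← M.eu2 hy i, mul_sum]
    exact sum_congr rfl fun j _ => by rw [d_comm M.sm hy j i]; ring
  rw [h1, sum_comm]
  unfold lin
  rw [mul_sum]
  refine sum_congr rfl fun j _ => ?_
  rw [← mul_sum, hW y hy j]
  ring

lemma crit_of (hW : ∀ y, y ≠ 0 → ∀ i, ∑ j, d j (d i E) y * W y j = E y * a i) {y : Fin n → ℝ} (hy : y ≠ 0)
    (h : 2 * lin a (W y) = lin a y ^ 2) : Crit E a y := by
  obtain ⟨v, hv⟩ : ∃ v : Fin n → ℝ, v = fun i => W y i - lin a y / 2 * y i := ⟨_, rfl⟩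
  have h1 : ∀ i, ∑ j, d j (d i E) y * v j = E y * a i - lin a y / 2 * d i E y := by
    intro i
    rw [hv]
    have h2 := hW y hy i
    have h3 := M.eu2' hy
    have h4 : ∑ j, d j (d i E) y * y j = d i E y := by
      rw [← M.eu2 hy i]
      exact sum_congr rfl fun j _ => by ring
    rw [← h2, ← h4, mul_sum, ← sum_sub_distrib]
    exact sum_congr rfl fun j _ => by ring
  have h5 : ∑ i, ∑ j, d j (d i E) y * v i * v j = 0 := by
    have h6 : ∑ i, ∑ j, d j (d i E) y * v i * v j = ∑ i, v i * (E y * a i - lin a y / 2 * d i E y) := by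
      refine sum_congr rfl fun i _ => ?_
      rw [← h1 i, mul_sum]
      exact sum_congr rfl fun j _ => by ring
    rw [h6, hv]
    have h7 := M.dE hW hy
    have h8 := M.eu1 hy
    have h9 : ∑ i, (W y i - lin a y / 2 * y i) * (E y * a i - lin a y / 2 * d i E y)
        = E y * lin a (W y) - lin a y / 2 * (∑ i, W y i * d i E y) - lin a y / 2 * E y * lin a y
          + (lin a y / 2) ^ 2 * ∑ i, y i * d i E y := by
      unfold lin
      rw [mul_sum, mul_sum, mul_sum, mul_sum, ← sum_sub_distrib, ← sum_sub_distrib, ← sum_add_distrib]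
      exact sum_congr rfl fun i _ => by ring
    rw [h9, h7, h8]
    linear_combination (E y / 2) * h
  by_cases hv0 : v = 0
  · intro i
    have h6 := h1 i
    rw [hv0] at h6
    simp only [Pi.zero_apply, mul_zero, sum_const_zero] at h6
    linarith
  · exact absurd h5 (M.pd y hy v hv0).ne'

/-- `f / √E` -/
lemma rho_line (hW : ∀ y, y ≠ 0 → ∀ i, ∑ j, d j (d i E) y * W y j = E y * a i) {y : Fin n → ℝ} (hy : y ≠ 0) :
    HasDerivAt (fun t : ℝ => lin a (y + t • W y) / √(E (y + t • W y)))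
      ((2 * lin a (W y) - lin a y ^ 2) / (2 * √(E y))) 0 := by
  have h1 := lin_line a y (W y) 0
  have h2 := M.sm.line0 hy (W y)
  rw [M.dE hW hy] at h2
  have hE := M.pos y hy
  have hE0 : E (y + (0 : ℝ) • W y) ≠ 0 := by simpa using hE.ne'
  have h3 := h2.sqrt hE0
  have hs : √(E y) ≠ 0 := (Real.sqrt_pos.2 hE).ne'
  have h4 := h1.div h3 (by simpa using hs)
  refine h4.congr_deriv ?_
  simp only [zero_smul, add_zero]
  have h5 : √(E y) ^ 2 = E y := Real.sq_sqrt hE.le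
  have h6 : √(E y) * √(E y) = E y := Real.mul_self_sqrt hE.le
  field_simp
  rw [h5]
  ring

lemma rho_hom : Hom 0 (fun y => lin a y / √(E y)) := by
  intro y hy t ht
  have h1 := M.hom y hy t ht
  have h2 : √(E (t • y)) = t * √(E y) := by
    rw [h1]
    have : (t : ℝ) ^ (2 : ℤ) = t ^ 2 := by norm_cast
    rw [this, Real.sqrt_mul (by positivity), Real.sqrt_sq ht.le]
  have hs : √(E y) ≠ 0 := (Real.sqrt_pos.2 (M.pos y hy)).ne'
  simp only [h2, lin_smul]
  field_simp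

lemma rho_cont : ContinuousOn (fun y => lin a y / √(E y)) {y | y ≠ 0} :=
  (lin_sm a).cont.div M.sm.cont.sqrt fun y hy => (Real.sqrt_pos.2 (M.pos y hy)).ne'

lemma crit_smul {y : Fin n → ℝ} (hy : y ≠ 0) (h : Crit E a y) {t : ℝ} (ht : 0 < t) : Crit E a (t • y) := by
  intro i
  have h1 := M.hom y hy t ht
  have h2 := M.hom.d i y hy t ht
  rw [h1, h2, lin_smul]
  have h3 := h i
  have h4 : (t : ℝ) ^ (2 : ℤ) = t ^ 2 := by norm_cast
  have h5 : (t : ℝ) ^ ((2 : ℤ) - 1) = t := by norm_num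
  rw [h4, h5]
  linear_combination t ^ 2 * h3

/-- critical rays with the same sign of `f` coincide -/
lemma crit_unique {y z : Fin n → ℝ} (hy : y ≠ 0) (hz : z ≠ 0) (h : Crit E a y) (h' : Crit E a z)
    (hEy : E y = 1) (hEz : E z = 1) (hf : 0 < lin a y * lin a z) : y = z := by
  by_contra hne
  have key : ∀ y z : Fin n → ℝ, y ≠ 0 → z ≠ 0 → Crit E a y → E y = 1 → E z = 1 → y ≠ z →
      2 * lin a z = lin a y * ∑ i, z i * d i E y ∧ ∑ i, z i * d i E y < 2 := by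
    intro y z hy hz h hEy hEz hne
    have h1 := M.fund hy hz hne
    refine ⟨?_, by rw [hEy, hEz] at h1; linarith⟩
    unfold lin
    rw [mul_sum]
    have h2 : ∀ i, 2 * a i = lin a y * d i E y := by
      intro i
      have := h i
      rw [hEy] at this
      linarith
    unfold lin at h2
    rw [mul_sum]
    refine sum_congr rfl fun i _ => ?_
    linear_combination z i * h2 i
  obtain ⟨h1, h2⟩ := key y z hy hz h hEy hEz hne
  obtain ⟨h3, h4⟩ := key z y hz hy h' hEz hEy (Ne.symm hne)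
  rcases pos_and_pos_or_neg_and_neg_of_mul_pos hf with ⟨p1, p2⟩ | ⟨p1, p2⟩
  · nlinarith
  · nlinarith

lemma crit_val {Ψ : (Fin n → ℝ) → ℝ} (h0 : Hom 0 Ψ) {y z : Fin n → ℝ} (hy : y ≠ 0) (hz : z ≠ 0)
    (h : Crit E a y) (h' : Crit E a z) (hf : 0 < lin a y * lin a z) : Ψ y = Ψ z := by
  have hEy := M.pos y hy
  have hEz := M.pos z hz
  obtain ⟨s, hs⟩ : ∃ s, s = (√(E y))⁻¹ := ⟨_, rfl⟩
  obtain ⟨t, ht⟩ : ∃ t, t = (√(E z))⁻¹ := ⟨_, rfl⟩
  have hs0 : 0 < s := by rw [hs]; exact inv_pos.2 (Real.sqrt_pos.2 hEy)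
  have ht0 : 0 < t := by rw [ht]; exact inv_pos.2 (Real.sqrt_pos.2 hEz)
  have h2 : ∀ r : ℝ, r ^ (2 : ℤ) = r ^ 2 := fun r => by norm_cast
  have e1 : E (s • y) = 1 := by
    rw [M.hom y hy s hs0, h2, hs, inv_pow, Real.sq_sqrt hEy.le, inv_mul_cancel₀ hEy.ne']
  have e2 : E (t • z) = 1 := by
    rw [M.hom z hz t ht0, h2, ht, inv_pow, Real.sq_sqrt hEz.le, inv_mul_cancel₀ hEz.ne']
  have h3 := M.crit_unique (smul_ne_zero hs0.ne' hy) (smul_ne_zero ht0.ne' hz) (M.crit_smul hy h hs0)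
    (M.crit_smul hz h' ht0) e1 e2 (by
      rw [lin_smul, lin_smul]
      have : s * lin a y * (t * lin a z) = (s * t) * (lin a y * lin a z) := by ring
      rw [this]
      positivity)
  have h4 := h0 y hy s hs0
  have h5 := h0 z hz t ht0
  simp only [zpow_zero, one_mul] at h4 h5
  rw [← h4, ← h5, h3]

/-- the constancy lemma -/
theorem const_of (hW : ∀ y, y ≠ 0 → ∀ i, ∑ j, d j (d i E) y * W y j = E y * a i) {Ψ : (Fin n → ℝ) → ℝ}
    (hc : ContinuousOn Ψ {y | y ≠ 0}) (h0 : Hom 0 Ψ)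
    (hd : ∀ y, y ≠ 0 → HasDerivAt (fun t : ℝ => Ψ (y + t • W y)) 0 0)
    (ha : a ≠ 0) (hker : ∃ y : Fin n → ℝ, y ≠ 0 ∧ lin a y = 0) :
    ∃ P, ∀ z, z ≠ 0 → Ψ z = P := by
  obtain ⟨ρ, hρ⟩ : ∃ ρ : (Fin n → ℝ) → ℝ, ρ = fun y => lin a y / √(E y) := ⟨_, rfl⟩
  have hρ0 : Hom 0 ρ := by rw [hρ]; exact M.rho_hom
  have hρc : ContinuousOn ρ {y | y ≠ 0} := by rw [hρ]; exact M.rho_cont
  have hpos : 0 < lin a a := by
    unfold lin
    obtain ⟨i, hi⟩ : ∃ i, a i ≠ 0 := by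
      by_contra h
      push Not at h
      exact ha (funext h)
    exact sum_pos' (fun i _ => mul_self_nonneg (a i)) ⟨i, mem_univ i, mul_self_pos.2 hi⟩
  have hcrit0 : ∀ y, y ≠ 0 → Crit E a y → lin a y ≠ 0 := by
    intro y hy h hl
    apply ha
    funext i
    have h1 := h i
    rw [hl, zero_mul] at h1
    have h2 := M.pos y hy
    rcases mul_eq_zero.1 h1 with h3 | h3
    · linarith
    · simpa using h3
  have hex : ∀ σ ε : ℝ, ε ≠ 0 → ∃ y, y ≠ 0 ∧ Crit E a y ∧ ∀ z, z ≠ 0 → σ * Ψ z + ε * ρ z ≤ σ * Ψ y + ε * ρ y := by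
    intro σ ε hε
    obtain ⟨y, hy, hmax⟩ := exists_max (Φ := fun z => σ * Ψ z + ε * ρ z)
      ((continuousOn_const.mul hc).add (continuousOn_const.mul hρc)) (by
        intro y hy t ht
        have h1 := h0 y hy t ht
        have h2 := hρ0 y hy t ht
        simp only [zpow_zero, one_mul] at h1 h2 ⊢
        rw [h1, h2]) ⟨a, ha⟩
    refine ⟨y, hy, ?_, hmax⟩
    have h3 : HasDerivAt (fun t : ℝ => σ * Ψ (y + t • W y) + ε * ρ (y + t • W y))
        (σ * 0 + ε * ((2 * lin a (W y) - lin a y ^ 2) / (2 * √(E y)))) 0 := by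
      rw [hρ]
      exact ((hd y hy).const_mul σ).add ((M.rho_line hW hy).const_mul ε)
    have h4 := deriv_max (Φ := fun z => σ * Ψ z + ε * ρ z) hy hmax h3
    have hs : 0 < √(E y) := Real.sqrt_pos.2 (M.pos y hy)
    have h5 : 2 * lin a (W y) - lin a y ^ 2 = 0 := by
      rw [mul_zero, zero_add] at h4
      rcases mul_eq_zero.1 h4 with h6 | h6
      · exact absurd h6 hε
      · rcases div_eq_zero_iff.1 h6 with h7 | h7
        · exact h7
        · nlinarith
    exact M.crit_of hW hy (by linarith)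
  have hatmax : ∀ σ ε : ℝ, ε ≠ 0 → ∀ y, y ≠ 0 → (∀ z, z ≠ 0 → σ * Ψ z + ε * ρ z ≤ σ * Ψ y + ε * ρ y) →
      Crit E a y := by
    intro σ ε hε y hy hmax
    have h3 : HasDerivAt (fun t : ℝ => σ * Ψ (y + t • W y) + ε * ρ (y + t • W y))
        (σ * 0 + ε * ((2 * lin a (W y) - lin a y ^ 2) / (2 * √(E y)))) 0 := by
      rw [hρ]
      exact ((hd y hy).const_mul σ).add ((M.rho_line hW hy).const_mul ε)
    have h4 := deriv_max (Φ := fun z => σ * Ψ z + ε * ρ z) hy hmax h3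
    have hs : 0 < √(E y) := Real.sqrt_pos.2 (M.pos y hy)
    have h5 : 2 * lin a (W y) - lin a y ^ 2 = 0 := by
      rw [mul_zero, zero_add] at h4
      rcases mul_eq_zero.1 h4 with h6 | h6
      · exact absurd h6 hε
      · rcases div_eq_zero_iff.1 h6 with h7 | h7
        · exact h7
        · nlinarith
    exact M.crit_of hW hy (by linarith)
  have hρpos : ∀ y, y ≠ 0 → 0 < lin a y → 0 < ρ y := by
    intro y hy h
    rw [hρ]
    exact div_pos h (Real.sqrt_pos.2 (M.pos y hy))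
  have hρneg : ∀ y, y ≠ 0 → lin a y < 0 → ρ y < 0 := by
    intro y hy h
    rw [hρ]
    exact div_neg_of_neg_of_pos h (Real.sqrt_pos.2 (M.pos y hy))
  obtain ⟨y₁, hy₁, c₁, m₁⟩ := hex 0 1 one_ne_zero
  obtain ⟨y₂, hy₂, c₂, m₂⟩ := hex 0 (-1) (by norm_num)
  have hna : -a ≠ 0 := neg_ne_zero.2 ha
  have hlna : lin a (-a) < 0 := by
    have : lin a (-a) = -lin a a := by
      unfold lin
      rw [← sum_neg_distrib]
      exact sum_congr rfl fun i _ => by simp
    rw [this]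
    linarith
  have p₁ : 0 < ρ y₁ := by
    have h1 := m₁ a ha
    have h2 := hρpos a ha hpos
    linarith
  have p₂ : ρ y₂ < 0 := by
    have h1 := m₂ (-a) hna
    have h2 := hρneg (-a) hna hlna
    linarith
  have l₁ : 0 < lin a y₁ := by
    rcases lt_trichotomy (lin a y₁) 0 with h | h | h
    · have := hρneg y₁ hy₁ h
      linarith
    · exact absurd h (hcrit0 y₁ hy₁ c₁)
    · exact h
  have l₂ : lin a y₂ < 0 := by
    rcases lt_trichotomy (lin a y₂) 0 with h | h | h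
    · exact h
    · exact absurd h (hcrit0 y₂ hy₂ c₂)
    · have := hρpos y₂ hy₂ h
      linarith
  have hcl : ∀ y, y ≠ 0 → Crit E a y → (Ψ y = Ψ y₁ ∧ ρ y = ρ y₁) ∨ (Ψ y = Ψ y₂ ∧ ρ y = ρ y₂) := by
    intro y hy h
    rcases lt_or_gt_of_ne (hcrit0 y hy h) with h1 | h1
    · right
      have h2 : 0 < lin a y * lin a y₂ := mul_pos_of_neg_of_neg h1 l₂
      exact ⟨M.crit_val h0 hy hy₂ h c₂ h2, M.crit_val hρ0 hy hy₂ h c₂ h2⟩
    · left
      have h2 : 0 < lin a y * lin a y₁ := mul_pos h1 l₁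
      exact ⟨M.crit_val h0 hy hy₁ h c₁ h2, M.crit_val hρ0 hy hy₁ h c₁ h2⟩
  have hPQ : Ψ y₁ = Ψ y₂ := by
    by_contra hne
    have hab : 0 < ρ y₁ - ρ y₂ := by linarith
    obtain ⟨ε, hε⟩ : ∃ ε, ε = -(Ψ y₁ - Ψ y₂) / (ρ y₁ - ρ y₂) := ⟨_, rfl⟩
    have hε0 : ε ≠ 0 := by
      rw [hε]
      exact div_ne_zero (neg_ne_zero.2 (sub_ne_zero.2 hne)) hab.ne'
    have he : Ψ y₁ + ε * ρ y₁ = Ψ y₂ + ε * ρ y₂ := by
      have : ε * (ρ y₁ - ρ y₂) = -(Ψ y₁ - Ψ y₂) := by
        rw [hε]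
        exact div_mul_cancel₀ _ hab.ne'
      linarith
    obtain ⟨y, hy, hyc, hym⟩ := hex 1 ε hε0
    obtain ⟨y', hy', hyc', hym'⟩ := hex (-1) (-ε) (neg_ne_zero.2 hε0)
    have hv : Ψ y + ε * ρ y = Ψ y₁ + ε * ρ y₁ := by
      rcases hcl y hy hyc with ⟨h1, h2⟩ | ⟨h1, h2⟩
      · rw [h1, h2]
      · rw [h1, h2, he]
    have hv' : Ψ y' + ε * ρ y' = Ψ y₁ + ε * ρ y₁ := by
      rcases hcl y' hy' hyc' with ⟨h1, h2⟩ | ⟨h1, h2⟩
      · rw [h1, h2]
      · rw [h1, h2, he]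
    obtain ⟨z₀, hz₀, hz₁⟩ := hker
    refine hcrit0 z₀ hz₀ (hatmax 1 ε hε0 z₀ hz₀ fun z hz => ?_) hz₁
    have h1 := hym z hz
    have h2 := hym' z₀ hz₀
    linarith
  refine ⟨Ψ y₁, fun z hz => le_antisymm ?_ ?_⟩
  · refine le_of_forall_pos_le_add fun δ hδ => ?_
    have hz1 : ρ z ≤ ρ y₁ := by
      have := m₁ z hz
      linarith
    obtain ⟨ε, hε⟩ : ∃ ε, ε = δ / (ρ y₁ - ρ z + 1) := ⟨_, rfl⟩
    have hden : 0 < ρ y₁ - ρ z + 1 := by linarith
    have hε0 : 0 < ε := by rw [hε]; exact div_pos hδ hden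
    obtain ⟨y, hy, hyc, hym⟩ := hex 1 ε hε0.ne'
    have h1 := hym z hz
    have h2 : Ψ y = Ψ y₁ := by
      rcases hcl y hy hyc with ⟨h1, h2⟩ | ⟨h1, h2⟩
      · exact h1
      · rw [h1, hPQ]
    have h3 : ρ y ≤ ρ y₁ := by
      have := m₁ y hy
      linarith
    have h4 : ε * (ρ y₁ - ρ z + 1) = δ := by
      rw [hε]
      exact div_mul_cancel₀ _ hden.ne'
    nlinarith
  · refine le_of_forall_pos_le_add fun δ hδ => ?_
    have hz1 : ρ z ≤ ρ y₁ := by
      have := m₁ z hz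
      linarith
    obtain ⟨ε, hε⟩ : ∃ ε, ε = δ / (ρ y₁ - ρ z + 1) := ⟨_, rfl⟩
    have hden : 0 < ρ y₁ - ρ z + 1 := by linarith
    have hε0 : 0 < ε := by rw [hε]; exact div_pos hδ hden
    obtain ⟨y, hy, hyc, hym⟩ := hex (-1) ε hε0.ne'
    have h1 := hym z hz
    have h2 : Ψ y = Ψ y₁ := by
      rcases hcl y hy hyc with ⟨h1, h2⟩ | ⟨h1, h2⟩
      · exact h1
      · rw [h1, hPQ]
    have h3 : ρ y ≤ ρ y₁ := by
      have := m₁ y hy
      linarith
    have h4 : ε * (ρ y₁ - ρ z + 1) = δ := by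
      rw [hε]
      exact div_mul_cancel₀ _ hden.ne'
    nlinarith

end Mink

end Pool.Agent.Q145.LB
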