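import Pool.Agent.Q145.LB.Mat

/-! The equation of the Cartan tensor. -/

set_option autoImplicit false

namespace Pool.Agent.Q145.LB

open Finset Matrix

variable {n : ℕ}

/-- product rule in a coordinate direction -/
lemma Sm.dirm {φ ψ : (Fin n → ℝ) → ℝ} (h : Sm φ) (h' : Sm ψ) {y : Fin n → ℝ} (hy : y ≠ 0) (k : Fin n) :
    HasDerivAt (fun s : ℝ => φ (y + s • (Pi.single k (1 : ℝ) : Fin n → ℝ)) *
      ψ (y + s • (Pi.single k (1 : ℝ) : Fin n → ℝ)))
      (Pool.Agent.Q145.LB.d k φ y * ψ y + φ y * Pool.Agent.Q145.LB.d k ψ y) 0 := by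
  refine ((h.dir hy k).mul (h'.dir hy k)).congr_deriv ?_
  simp

lemma lin_single (a : Fin n → ℝ) (k : Fin n) : lin a (Pi.single k (1 : ℝ) : Fin n → ℝ) = a k := by
  unfold lin
  simp [Pi.single_apply]

lemma lin_dir (a y : Fin n → ℝ) (k : Fin n) :
    HasDerivAt (fun s : ℝ => lin a (y + s • (Pi.single k (1 : ℝ) : Fin n → ℝ))) (a k) 0 := by
  have := lin_line a y (Pi.single k (1 : ℝ) : Fin n → ℝ) 0
  rwa [lin_single] at this

lemma Sm.dirl {φ : (Fin n → ℝ) → ℝ} (h : Sm φ) (a : Fin n → ℝ) {y : Fin n → ℝ} (hy : y ≠ 0) (k : Fin n) :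
    HasDerivAt (fun s : ℝ => φ (y + s • (Pi.single k (1 : ℝ) : Fin n → ℝ)) *
      lin a (y + s • (Pi.single k (1 : ℝ) : Fin n → ℝ)))
      (Pool.Agent.Q145.LB.d k φ y * lin a y + φ y * a k) 0 := by
  refine ((h.dir hy k).mul (lin_dir a y k)).congr_deriv ?_
  simp

namespace Mink

variable {E : (Fin n → ℝ) → ℝ} (M : Mink E) {a : Fin n → ℝ} {W : (Fin n → ℝ) → Fin n → ℝ}

include M

lemma s12 {y : Fin n → ℝ} (hy : y ≠ 0) (i j k : Fin n) : d k (d j (d i E)) y = d k (d i (d j E)) y :=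
  d_congr (fun z hz => d_comm M.sm hz j i) hy k

lemma s23 {y : Fin n → ℝ} (hy : y ≠ 0) (i j k : Fin n) : d k (d j (d i E)) y = d j (d k (d i E)) y :=
  d_comm (M.sm.d i) hy k j

lemma t12 {y : Fin n → ℝ} (hy : y ≠ 0) (i j k l : Fin n) :
    d l (d k (d j (d i E))) y = d l (d k (d i (d j E))) y :=
  d_congr (fun _ hz => M.s12 hz i j k) hy l

lemma t23 {y : Fin n → ℝ} (hy : y ≠ 0) (i j k l : Fin n) :
    d l (d k (d j (d i E))) y = d l (d j (d k (d i E))) y :=
  d_congr (fun _ hz => M.s23 hz i j k) hy l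

lemma t34 {y : Fin n → ℝ} (hy : y ≠ 0) (i j k l : Fin n) :
    d l (d k (d j (d i E))) y = d k (d l (d j (d i E))) y :=
  d_comm ((M.sm.d i).d j) hy l k

lemma eu3 {y : Fin n → ℝ} (hy : y ≠ 0) (i j : Fin n) : ∑ k, y k * d k (d j (d i E)) y = 0 := by
  have := ((M.hom.d i).d j).euler ((M.sm.d i).d j) hy
  rw [this]
  norm_num

section eqs

variable (hWs : ∀ i, Sm (fun y => W y i))
  (hW : ∀ y, y ≠ 0 → ∀ i, ∑ j, d j (d i E) y * W y j = E y * a i)

include hWs hW

lemma R3 {y : Fin n → ℝ} (hy : y ≠ 0) (i k : Fin n) :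
    ∑ j, (d k (d j (d i E)) y * W y j + d j (d i E) y * d k (fun y => W y j) y) = d k E y * a i := by
  have h1 : HasDerivAt (fun s : ℝ => (fun y => ∑ j, d j (d i E) y * W y j)
      (y + s • (Pi.single k (1 : ℝ) : Fin n → ℝ)))
      (∑ j, (d k (d j (d i E)) y * W y j + d j (d i E) y * d k (fun y => W y j) y)) 0 :=
    HasDerivAt.fun_sum fun j _ => Sm.dirm ((M.sm.d i).d j) (hWs j) hy k
  have h2 : HasDerivAt (fun s : ℝ => (fun y => E y * a i) (y + s • (Pi.single k (1 : ℝ) : Fin n → ℝ)))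
      (d k E y * a i) 0 := (M.sm.dir hy k).mul_const (a i)
  exact diff_id (fun z hz => hW z hz i) hy _ h1 h2

lemma R4 {y : Fin n → ℝ} (hy : y ≠ 0) (k : Fin n) :
    ∑ i, d k (fun y => W y i) y * d i E y = d k E y * lin a y := by
  have h1 : HasDerivAt (fun s : ℝ => (fun y => ∑ i, W y i * d i E y)
      (y + s • (Pi.single k (1 : ℝ) : Fin n → ℝ)))
      (∑ i, (d k (fun y => W y i) y * d i E y + W y i * d k (d i E) y)) 0 :=
    HasDerivAt.fun_sum fun j _ => Sm.dirm (hWs j) (M.sm.d j) hy k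
  have h2 : HasDerivAt (fun s : ℝ => (fun y => E y * lin a y) (y + s • (Pi.single k (1 : ℝ) : Fin n → ℝ)))
      (d k E y * lin a y + E y * a k) 0 := M.sm.dirl a hy k
  have h3 := diff_id (fun z hz => M.dE hW hz) hy _ h1 h2
  rw [sum_add_distrib] at h3
  have h4 : ∑ i, W y i * d k (d i E) y = E y * a k := by
    rw [← hW y hy k]
    exact sum_congr rfl fun i _ => by rw [d_comm M.sm hy k i]; ring
  linarith

lemma R6 {y : Fin n → ℝ} (hy : y ≠ 0) (k l : Fin n) :
    ∑ i, d l (d k (fun y => W y i)) y * d i E y =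
      d l (d k E) y * lin a y + ∑ j, d k (d j (d l E)) y * W y j := by
  have h1 : HasDerivAt (fun s : ℝ => (fun y => ∑ i, d k (fun y => W y i) y * d i E y)
      (y + s • (Pi.single l (1 : ℝ) : Fin n → ℝ)))
      (∑ i, (d l (d k (fun y => W y i)) y * d i E y + d k (fun y => W y i) y * d l (d i E) y)) 0 :=
    HasDerivAt.fun_sum fun j _ => Sm.dirm ((hWs j).d k) (M.sm.d j) hy l
  have h2 : HasDerivAt (fun s : ℝ => (fun y => d k E y * lin a y)
      (y + s • (Pi.single l (1 : ℝ) : Fin n → ℝ)))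
      (d l (d k E) y * lin a y + d k E y * a l) 0 := (M.sm.d k).dirl a hy l
  have h3 := diff_id (fun z hz => M.R4 hWs hW hz k) hy _ h1 h2
  rw [sum_add_distrib] at h3
  have h4 := M.R3 hWs hW hy l k
  rw [sum_add_distrib] at h4
  have h5 : ∑ i, d k (fun y => W y i) y * d l (d i E) y = ∑ i, d i (d l E) y * d k (fun y => W y i) y :=
    sum_congr rfl fun i _ => by rw [d_comm M.sm hy l i]; ring
  rw [h5] at h3
  linarith

/-- the equation of the Cartan tensor -/
lemma KK (hL : ∀ y, y ≠ 0 → ∀ j k l, ∑ i, d i E y * d j (d k (d l (fun y => W y i))) y = 0)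
    {y : Fin n → ℝ} (hy : y ≠ 0) (i j k : Fin n) :
    2 * ∑ p, W y p * d p (d k (d j (d i E))) y + lin a y * d k (d j (d i E)) y
      + ∑ p, d i (fun y => W y p) y * d k (d j (d p E)) y
      + ∑ p, d k (d p (d i E)) y * d j (fun y => W y p) y
      + ∑ p, d k (fun y => W y p) y * d p (d j (d i E)) y = 0 := by
  -- R7, in direction i
  have h1 : HasDerivAt (fun s : ℝ => (fun y => ∑ p, d k (d j (fun y => W y p)) y * d p E y)
      (y + s • (Pi.single i (1 : ℝ) : Fin n → ℝ)))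
      (∑ p, (d i (d k (d j (fun y => W y p))) y * d p E y + d k (d j (fun y => W y p)) y * d i (d p E) y)) 0 :=
    HasDerivAt.fun_sum fun p _ => Sm.dirm (((hWs p).d j).d k) (M.sm.d p) hy i
  have h2 : HasDerivAt (fun s : ℝ => (fun y => d k (d j E) y * lin a y + ∑ p, d j (d p (d k E)) y * W y p)
      (y + s • (Pi.single i (1 : ℝ) : Fin n → ℝ)))
      ((d i (d k (d j E)) y * lin a y + d k (d j E) y * a i)
        + ∑ p, (d i (d j (d p (d k E))) y * W y p + d j (d p (d k E)) y * d i (fun y => W y p) y)) 0 :=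
    (((M.sm.d j).d k).dirl a hy i).add
      (HasDerivAt.fun_sum fun p _ => Sm.dirm (((M.sm.d k).d p).d j) (hWs p) hy i)
  have h3 := diff_id (fun z hz => M.R6 hWs hW hz j k) hy _ h1 h2
  rw [sum_add_distrib, sum_add_distrib] at h3
  have h4 : ∑ p, d i (d k (d j (fun y => W y p))) y * d p E y = 0 := by
    rw [← hL y hy i k j]
    exact sum_congr rfl fun p _ => by ring
  -- R8, index i, directions j, k
  have h5 : HasDerivAt (fun s : ℝ => (fun y => ∑ p, (d j (d p (d i E)) y * W y p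
      + d p (d i E) y * d j (fun y => W y p) y))
      (y + s • (Pi.single k (1 : ℝ) : Fin n → ℝ)))
      (∑ p, ((d k (d j (d p (d i E))) y * W y p + d j (d p (d i E)) y * d k (fun y => W y p) y)
        + (d k (d p (d i E)) y * d j (fun y => W y p) y
          + d p (d i E) y * d k (d j (fun y => W y p)) y))) 0 :=
    HasDerivAt.fun_sum fun p _ => (Sm.dirm (((M.sm.d i).d p).d j) (hWs p) hy k).add
      (Sm.dirm ((M.sm.d i).d p) ((hWs p).d j) hy k)
  have h6 : HasDerivAt (fun s : ℝ => (fun y => d j E y * a i) (y + s • (Pi.single k (1 : ℝ) : Fin n → ℝ)))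
      (d k (d j E) y * a i) 0 := ((M.sm.d j).dir hy k).mul_const (a i)
  have h7 := diff_id (fun z hz => M.R3 hWs hW hz i j) hy _ h5 h6
  rw [sum_add_distrib, sum_add_distrib, sum_add_distrib] at h7
  have e1 : ∑ p, d k (d j (fun y => W y p)) y * d i (d p E) y
      = ∑ p, d p (d i E) y * d k (d j (fun y => W y p)) y :=
    sum_congr rfl fun p _ => by rw [d_comm M.sm hy i p]; ring
  have e2 : d i (d k (d j E)) y = d k (d j (d i E)) y := by
    rw [M.s23 hy j k i, M.s12 hy j i k]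
  have e3 : ∑ p, d i (d j (d p (d k E))) y * W y p = ∑ p, W y p * d p (d k (d j (d i E))) y := by
    refine sum_congr rfl fun p _ => ?_
    have : d i (d j (d p (d k E))) y = d p (d k (d j (d i E))) y := by
      -- k p j i → i j k p
      rw [M.t34 hy k p j i, M.t23 hy k p i j, M.t12 hy k i p j, M.t34 hy i k p j, M.t23 hy i k j p]
    rw [this]
    ring
  have e4 : ∑ p, d j (d p (d k E)) y * d i (fun y => W y p) y
      = ∑ p, d i (fun y => W y p) y * d k (d j (d p E)) y := by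
    refine sum_congr rfl fun p _ => ?_
    have : d j (d p (d k E)) y = d k (d j (d p E)) y := by
      rw [M.s12 hy k p j, M.s23 hy p k j]
    rw [this]
    ring
  have e5 : ∑ p, d k (d j (d p (d i E))) y * W y p = ∑ p, W y p * d p (d k (d j (d i E))) y := by
    refine sum_congr rfl fun p _ => ?_
    have : d k (d j (d p (d i E))) y = d p (d k (d j (d i E))) y := by
      rw [M.t23 hy i p j k, M.t34 hy i j p k]
    rw [this]
    ring
  have e6 : ∑ p, d j (d p (d i E)) y * d k (fun y => W y p) y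
      = ∑ p, d k (fun y => W y p) y * d p (d j (d i E)) y := by
    refine sum_congr rfl fun p _ => ?_
    rw [M.s23 hy i p j]
    ring
  rw [e1, e2, e3, e4, h4] at h3
  rw [e5, e6] at h7
  linarith

end eqs

end Mink

end Pool.Agent.Q145.LB
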