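import Pool.Agent.Q145.LB.Th

/-! The pointwise theorem. -/

set_option autoImplicit false

namespace Pool.Agent.Q145.LB

open Finset Matrix

variable {n : ℕ}

namespace Mink

variable {E : (Fin n → ℝ) → ℝ} (M : Mink E) {a : Fin n → ℝ} {W : (Fin n → ℝ) → Fin n → ℝ}

include M

/-- there is a point where the mean Cartan form vanishes -/
lemma exists_I (hn : ∃ y : Fin n → ℝ, y ≠ 0) :
    ∃ y, y ≠ 0 ∧ ∀ k, ((gM E y)⁻¹ * CM E k y).trace = 0 := by
  obtain ⟨y, hy, hmax⟩ := exists_max (Φ := fun y => (gM E y).det) (Sm.det M.gSm).cont (by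
    intro y hy t ht
    simp only [M.gM_smul hy ht, zpow_zero, one_mul]) hn
  refine ⟨y, hy, fun k => ?_⟩
  have h1 : MD (fun t => gM E (y + t • (Pi.single k (1 : ℝ) : Fin n → ℝ))) (CM E k y) := by
    refine (M.gM_line hy _).congr ?_
    ext i j
    rw [Matrix.sum_apply]
    simp [Pi.single_apply]
  have h2 := h1.det (h := (gM E y)⁻¹) (by simpa using M.mul_inv hy)
  have h3 := deriv_max (Φ := fun y => (gM E y).det) hy hmax h2
  simp only [zero_smul, add_zero] at h3
  rcases mul_eq_zero.1 h3 with h4 | h4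
  · exact absurd h4 (M.root hy).1
  · exact h4

/-- if the mean Cartan form vanishes, the Cartan tensor vanishes somewhere -/
lemma exists_C (hn : ∃ y : Fin n → ℝ, y ≠ 0)
    (hI : ∀ y, y ≠ 0 → ∀ k, ((gM E y)⁻¹ * CM E k y).trace = 0) :
    ∃ y, y ≠ 0 ∧ ∀ k, CM E k y = 0 := by
  obtain ⟨u, hu⟩ : ∃ u : (Fin n → ℝ) → ℝ, u = fun y => ∑ p, d p (d p E) y := ⟨_, rfl⟩
  have hus : Sm u := by
    rw [hu]
    exact Sm.sum fun p _ => (M.sm.d p).d p
  obtain ⟨y, hy, hmax⟩ := exists_max (Φ := u) hus.cont (by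
    intro y hy t ht
    rw [hu]
    simp only [zpow_zero, one_mul]
    refine sum_congr rfl fun p _ => ?_
    have := (M.hom.d p).d p y hy t ht
    simpa using this) hn
  refine ⟨y, hy, ?_⟩
  obtain ⟨hdet, B, hB, hBd⟩ := M.root hy
  -- second derivatives of u
  have hu1 : ∀ i, ∀ z, z ≠ 0 → d i u z = ∑ p, d i (d p (d p E)) z := by
    intro i z hz
    have h1 : HasDerivAt (fun s : ℝ => u (z + s • (Pi.single i (1 : ℝ) : Fin n → ℝ)))
        (∑ p, d i (d p (d p E)) z) 0 := by
      rw [hu]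
      exact HasDerivAt.fun_sum fun p _ => ((M.sm.d p).d p).dir hz i
    exact (hus.dir hz i).unique h1
  have hu2 : ∀ i j, d j (d i u) y = ∑ p, d p (d p (d j (d i E))) y := by
    intro i j
    rw [d_congr (hu1 i) hy j]
    have h1 : HasDerivAt (fun s : ℝ => (fun z => ∑ p, d i (d p (d p E)) z)
        (y + s • (Pi.single j (1 : ℝ) : Fin n → ℝ))) (∑ p, d j (d i (d p (d p E))) y) 0 :=
      HasDerivAt.fun_sum fun p _ => (((M.sm.d p).d p).d i).dir hy j
    have h2 : Sm (fun z => ∑ p, d i (d p (d p E)) z) := Sm.sum fun p _ => ((M.sm.d p).d p).d i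
    rw [(h2.dir hy j).unique h1]
    refine sum_congr rfl fun p _ => ?_
    rw [M.t23 hy p p i j, M.t12 hy p i p j, M.t34 hy i p p j, M.t23 hy i p j p]
  have hneg : ((gM E y)⁻¹ * Matrix.of fun i j => d j (d i u) y).trace ≤ 0 := by
    rw [hB, trace_pos]
    refine sum_nonpos fun q _ => ?_
    exact deriv2_max hus hy hmax (fun i => B q i)
  -- the derivative of the trace
  have hpos : ((gM E y)⁻¹ * Matrix.of fun i j => d j (d i u) y).trace
      = ∑ p, ((gM E y)⁻¹ * CM E p y * ((gM E y)⁻¹ * CM E p y)).trace := by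
    have h1 : ∀ p, ((gM E y)⁻¹ * Matrix.of fun i j => d p (d p (d j (d i E))) y).trace
        = ((gM E y)⁻¹ * CM E p y * ((gM E y)⁻¹ * CM E p y)).trace := by
      intro p
      have h2 : MD (fun t => CM E p (y + t • (Pi.single p (1 : ℝ) : Fin n → ℝ)))
          (Matrix.of fun i j => d p (d p (d j (d i E))) y) := fun i j => (M.CSm p i j).dir hy p
      have h3 : MD (fun t => (gM E (y + t • (Pi.single p (1 : ℝ) : Fin n → ℝ)))⁻¹)
          (-((gM E y)⁻¹ * CM E p y * (gM E y)⁻¹)) := by
        refine (M.hM_line hy _).congr ?_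
        have : ∑ q, (Pi.single p (1 : ℝ) : Fin n → ℝ) q • CM E q y = CM E p y := by
          ext i j
          rw [Matrix.sum_apply]
          simp [Pi.single_apply]
        rw [this]
      have h4 := (h3.mul h2).trace
      simp only [zero_smul, add_zero] at h4
      have h5 : HasDerivAt (fun t : ℝ => ((gM E (y + t • (Pi.single p (1 : ℝ) : Fin n → ℝ)))⁻¹ *
          CM E p (y + t • (Pi.single p (1 : ℝ) : Fin n → ℝ))).trace) 0 0 := by
        refine (hasDerivAt_const (0 : ℝ) (0 : ℝ)).congr_of_eventuallyEq ?_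
        filter_upwards [near hy (Pi.single p (1 : ℝ) : Fin n → ℝ)] with t ht using hI _ ht p
      have h6 := h4.unique h5
      rw [trace_add, neg_mul, trace_neg] at h6
      have h7 : ((gM E y)⁻¹ * CM E p y * (gM E y)⁻¹ * CM E p y).trace
          = ((gM E y)⁻¹ * CM E p y * ((gM E y)⁻¹ * CM E p y)).trace := by
        simp only [mul_assoc]
      linarith
    rw [← sum_congr rfl fun p _ => h1 p]
    simp only [tr_mul, of_apply]
    have e1 : ∀ i j, (gM E y)⁻¹ i j * d i (d j u) y = ∑ p, (gM E y)⁻¹ i j * d p (d p (d i (d j E))) y := by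
      intro i j
      rw [hu2, mul_sum]
    simp only [e1]
    calc ∑ i, ∑ j, ∑ p, (gM E y)⁻¹ i j * d p (d p (d i (d j E))) y
        = ∑ i, ∑ p, ∑ j, (gM E y)⁻¹ i j * d p (d p (d i (d j E))) y :=
          sum_congr rfl fun i _ => sum_comm
      _ = _ := sum_comm
  rw [hpos] at hneg
  have hterm : ∀ p, ((gM E y)⁻¹ * CM E p y * ((gM E y)⁻¹ * CM E p y)).trace
      = ∑ k, ∑ l, ((B * CM E p y * Bᵀ) k l) ^ 2 := by
    intro p
    rw [hB, trace_sq (M.CM_symm hy p)]
  simp only [hterm] at hneg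
  have hz : ∀ p k l, ((B * CM E p y * Bᵀ) k l) ^ 2 = 0 := by
    have h0 : ∑ p, ∑ k, ∑ l, ((B * CM E p y * Bᵀ) k l) ^ 2 = 0 :=
      le_antisymm hneg (sum_nonneg fun p _ => sum_nonneg fun k _ => sum_nonneg fun l _ => sq_nonneg _)
    intro p k l
    have h1 := (sum_eq_zero_iff_of_nonneg (fun p _ => sum_nonneg fun k _ => sum_nonneg fun l _ =>
      sq_nonneg _)).1 h0 p (mem_univ p)
    have h2 := (sum_eq_zero_iff_of_nonneg (fun k _ => sum_nonneg fun l _ => sq_nonneg _)).1 h1 k (mem_univ k)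
    exact (sum_eq_zero_iff_of_nonneg (fun l _ => sq_nonneg _)).1 h2 l (mem_univ l)
  intro p
  have h1 : B * CM E p y * Bᵀ = 0 := by
    ext k l
    exact pow_eq_zero_iff (two_ne_zero) |>.1 (hz p k l)
  have hBu : IsUnit B.det := isUnit_iff_ne_zero.2 hBd
  have h2 : B⁻¹ * (B * CM E p y * Bᵀ) * (Bᵀ)⁻¹ = CM E p y := by
    have e1 : B⁻¹ * B = 1 := nonsing_inv_mul _ hBu
    have e2 : Bᵀ * (Bᵀ)⁻¹ = 1 := mul_nonsing_inv _ (by rwa [det_transpose])
    rw [show B⁻¹ * (B * CM E p y * Bᵀ) * (Bᵀ)⁻¹ = (B⁻¹ * B) * CM E p y * (Bᵀ * (Bᵀ)⁻¹) by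
      simp only [mul_assoc], e1, e2, one_mul, mul_one]
  rw [h1, mul_zero, zero_mul] at h2
  exact h2.symm

/-- the pointwise theorem -/
theorem cartan_zero (hWs : ∀ i, Sm (fun y => W y i))
    (hW : ∀ y, y ≠ 0 → ∀ i, ∑ j, d j (d i E) y * W y j = E y * a i)
    (hL : ∀ y, y ≠ 0 → ∀ j k l, ∑ i, d i E y * d j (d k (d l (fun y => W y i))) y = 0)
    (ha : a ≠ 0) {z : Fin n → ℝ} (hz : z ≠ 0) (i j k : Fin n) : d k (d j (d i E)) z = 0 := by
  by_cases hker : ∃ y : Fin n → ℝ, y ≠ 0 ∧ lin a y = 0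
  · have hn : ∃ y : Fin n → ℝ, y ≠ 0 := ⟨z, hz⟩
    -- first stage
    have hI : ∀ y, y ≠ 0 → ∀ k, ((gM E y)⁻¹ * CM E k y).trace = 0 := by
      obtain ⟨P, hP⟩ := M.stage1 hWs hW hL ha hker
      obtain ⟨y₀, hy₀, h0⟩ := M.exists_I hn
      have hP0 : P = 0 := by
        rw [← hP y₀ hy₀, tr_mul]
        simp [h0]
      intro y hy
      have h1 := hP y hy
      rw [hP0] at h1
      have h2 := (mul_eq_zero.1 h1).resolve_left (M.pos y hy).ne'
      obtain ⟨_, B, hB, hBd⟩ := M.root hy
      rw [hB, trace_pos] at h2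
      rw [← hB] at h2
      have h3 : ∀ q, ∑ i, ∑ j, B q i * B q j * (Matrix.of fun k l =>
          ((gM E y)⁻¹ * CM E k y).trace * ((gM E y)⁻¹ * CM E l y).trace) i j
          = (B *ᵥ fun k => ((gM E y)⁻¹ * CM E k y).trace) q ^ 2 := by
        intro q
        simp only [mulVec, dotProduct, of_apply]
        rw [sq, sum_mul_sum]
        exact sum_congr rfl fun i _ => sum_congr rfl fun j _ => by ring
      simp only [h3] at h2
      have h4 : B *ᵥ (fun k => ((gM E y)⁻¹ * CM E k y).trace) = 0 := by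
        ext q
        have := (sum_eq_zero_iff_of_nonneg (fun q _ => sq_nonneg _)).1 h2 q (mem_univ q)
        exact pow_eq_zero_iff (two_ne_zero) |>.1 this
      have h5 := eq_zero_of_mulVec_eq_zero hBd h4
      exact fun k => congrFun h5 k
    -- second stage
    obtain ⟨P, hP⟩ := M.stage2 hWs hW hL ha hker
    obtain ⟨y₀, hy₀, h0⟩ := M.exists_C hn hI
    have hP0 : P = 0 := by
      rw [← hP y₀ hy₀, tr_mul]
      simp [h0]
    have h1 := hP z hz
    rw [hP0] at h1
    have h2 := (mul_eq_zero.1 h1).resolve_left (M.pos z hz).ne'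
    obtain ⟨_, B, hB, hBd⟩ := M.root hz
    rw [hB, trace_pos] at h2
    rw [← hB] at h2
    obtain ⟨D, hD⟩ : ∃ D : Fin n → Matrix (Fin n) (Fin n) ℝ, D = fun q => ∑ k, B q k • CM E k z := ⟨_, rfl⟩
    have hDs : ∀ q, (D q)ᵀ = D q := by
      intro q
      rw [hD, transpose_sum]
      exact sum_congr rfl fun k _ => by rw [transpose_smul, M.CM_symm hz]
    have h3 : ∀ q, ∑ i, ∑ j, B q i * B q j * (Matrix.of fun k l =>
        ((gM E z)⁻¹ * CM E k z * ((gM E z)⁻¹ * CM E l z)).trace) i j
        = ∑ k, ∑ l, ((B * D q * Bᵀ) k l) ^ 2 := by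
      intro q
      rw [← trace_sq (hDs q), ← hB, hD]
      simp only [of_apply]
      rw [mul_sum, sum_mul_sum, trace_sum]
      refine sum_congr rfl fun i _ => ?_
      rw [trace_sum]
      refine sum_congr rfl fun j _ => ?_
      rw [mul_smul_comm, mul_smul_comm, smul_mul_assoc, mul_smul_comm, trace_smul, trace_smul]
      simp only [smul_eq_mul]
      ring
    simp only [h3] at h2
    have hBu : IsUnit B.det := isUnit_iff_ne_zero.2 hBd
    have h4 : ∀ q, D q = 0 := by
      intro q
      have g1 : B * D q * Bᵀ = 0 := by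
        ext k l
        have e1 := (sum_eq_zero_iff_of_nonneg (fun q _ => sum_nonneg fun k _ => sum_nonneg fun l _ =>
          sq_nonneg _)).1 h2 q (mem_univ q)
        have e2 := (sum_eq_zero_iff_of_nonneg (fun k _ => sum_nonneg fun l _ => sq_nonneg _)).1 e1 k (mem_univ k)
        have e3 := (sum_eq_zero_iff_of_nonneg (fun l _ => sq_nonneg _)).1 e2 l (mem_univ l)
        exact pow_eq_zero_iff (two_ne_zero) |>.1 e3
      have g2 : B⁻¹ * (B * D q * Bᵀ) * (Bᵀ)⁻¹ = D q := by
        have e1 : B⁻¹ * B = 1 := nonsing_inv_mul _ hBu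
        have e2 : Bᵀ * (Bᵀ)⁻¹ = 1 := mul_nonsing_inv _ (by rwa [det_transpose])
        rw [show B⁻¹ * (B * D q * Bᵀ) * (Bᵀ)⁻¹ = (B⁻¹ * B) * D q * (Bᵀ * (Bᵀ)⁻¹) by
          simp only [mul_assoc], e1, e2, one_mul, mul_one]
      rw [g1, mul_zero, zero_mul] at g2
      exact g2.symm
    have h5 : B *ᵥ (fun k => CM E k z i j) = 0 := by
      ext q
      have e1 := h4 q
      rw [hD] at e1
      have e2 := congrFun (congrFun e1 i) j
      simp only [Matrix.sum_apply, Matrix.smul_apply, smul_eq_mul] at e2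
      exact e2
    have h6 := eq_zero_of_mulVec_eq_zero hBd h5
    exact congrFun h6 k
  · push Not at hker
    -- one dimension
    have hsub : ∀ i j : Fin n, i = j := by
      by_contra hcon
      push Not at hcon
      obtain ⟨i, j, hij⟩ := hcon
      by_cases h0 : a i = 0
      · refine hker (Pi.single i 1) ?_ ?_
        · intro h
          have := congrFun h i
          simp at this
        · rw [lin_single, h0]
      · obtain ⟨v, hv⟩ : ∃ v : Fin n → ℝ, v = fun k => if k = i then a j else if k = j then -a i else 0 :=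
          ⟨_, rfl⟩
        refine hker v ?_ ?_
        · intro h
          have := congrFun h j
          rw [hv] at this
          simp [Ne.symm hij, h0] at this
        · unfold lin
          have h1 : ∀ k, a k * v k = (if k = i then a i * a j else 0) + (if k = j then -(a i * a j) else 0) := by
            intro k
            rw [hv]
            by_cases h1 : k = i
            · subst h1
              simp [hij]
            · by_cases h2 : k = j
              · subst h2
                simp [h1]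
                ring
              · simp [h1, h2]
          simp only [h1, sum_add_distrib, sum_ite_eq', mem_univ, if_true]
          ring
    have h1 := M.eu3 hz i j
    have h2 : ∑ k, z k * d k (d j (d i E)) z = z k * d k (d j (d i E)) z := by
      refine sum_eq_single k (fun b _ hb => absurd (hsub b k) hb) (fun h => absurd (mem_univ k) h)
    rw [h2] at h1
    have h3 : z k ≠ 0 := by
      intro h
      apply hz
      funext l
      rw [hsub l k]
      exact h
    exact (mul_eq_zero.1 h1).resolve_left h3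

end Mink

end Pool.Agent.Q145.LB
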