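import Pool.Agent.Q145.LB.Det

/-! The Cartan tensor vanishes. -/

set_option autoImplicit false

namespace Pool.Agent.Q145.LB

open Finset Matrix

variable {n : ℕ}

/-- the fundamental tensor -/
noncomputable def gM (E : (Fin n → ℝ) → ℝ) (y : Fin n → ℝ) : Matrix (Fin n) (Fin n) ℝ :=
  Matrix.of fun i j => d j (d i E) y

/-- the Cartan tensor -/
noncomputable def CM (E : (Fin n → ℝ) → ℝ) (k : Fin n) (y : Fin n → ℝ) : Matrix (Fin n) (Fin n) ℝ :=
  Matrix.of fun i j => d k (d j (d i E)) y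

/-- the derivative of the conformal field -/
noncomputable def WM (W : (Fin n → ℝ) → Fin n → ℝ) (y : Fin n → ℝ) : Matrix (Fin n) (Fin n) ℝ :=
  Matrix.of fun i j => d j (fun y => W y i) y

lemma MD.congr {A : ℝ → Matrix (Fin n) (Fin n) ℝ} {A' B' : Matrix (Fin n) (Fin n) ℝ} (h : MD A A')
    (e : A' = B') : MD A B' := e ▸ h

lemma tr_mul (A B : Matrix (Fin n) (Fin n) ℝ) : (A * B).trace = ∑ i, ∑ j, A i j * B j i := by
  simp [Matrix.trace, Matrix.mul_apply]

/-- second derivative test -/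
lemma deriv2_max {u : (Fin n → ℝ) → ℝ} (hu : Sm u) {y : Fin n → ℝ} (hy : y ≠ 0)
    (hmax : ∀ z, z ≠ 0 → u z ≤ u y) (b : Fin n → ℝ) : ∑ i, ∑ j, b i * b j * d j (d i u) y ≤ 0 := by
  by_contra hcon
  push Not at hcon
  obtain ⟨φ, hφ⟩ : ∃ φ : ℝ → ℝ, φ = fun t => u (y + t • b) := ⟨_, rfl⟩
  have h1 : ∀ᶠ t : ℝ in nhds 0, deriv φ t = ∑ i, b i * d i u (y + t • b) := by
    filter_upwards [near hy b] with t ht
    rw [hφ]
    exact (hu.line y b t ht).deriv
  have h2 : HasDerivAt (fun t : ℝ => ∑ i, b i * d i u (y + t • b)) (∑ i, b i * ∑ j, b j * d j (d i u) y) 0 :=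
    HasDerivAt.fun_sum fun i _ => ((hu.d i).line0 hy b).const_mul (b i)
  have h3 : deriv (deriv φ) 0 = ∑ i, ∑ j, b i * b j * d j (d i u) y := by
    have : deriv φ =ᶠ[nhds 0] fun t : ℝ => ∑ i, b i * d i u (y + t • b) := h1
    rw [this.deriv_eq, h2.deriv]
    refine sum_congr rfl fun i _ => ?_
    rw [mul_sum]
    exact sum_congr rfl fun j _ => by ring
  have h4 : IsLocalMax φ 0 := by
    filter_upwards [near hy b] with t ht
    rw [hφ]
    simpa using hmax _ ht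
  have h5 : deriv φ 0 = 0 := h4.deriv_eq_zero
  have h6 : ContinuousAt φ 0 := by
    rw [hφ]
    exact (hu.line0 hy b).continuousAt
  have h7 : IsLocalMin φ 0 := isLocalMin_of_deriv_deriv_pos (by rw [h3]; exact hcon) h5 h6
  have h8 : φ =ᶠ[nhds 0] fun _ => φ 0 := by
    filter_upwards [h4, h7] with t ht1 ht2 using le_antisymm ht1 ht2
  have h9 : deriv φ =ᶠ[nhds 0] fun _ => 0 := by
    have := h8.deriv
    filter_upwards [this] with t ht
    rw [ht]
    simp
  have h10 : deriv (deriv φ) 0 = 0 := by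
    rw [h9.deriv_eq]
    simp
  rw [h3] at h10
  linarith

namespace Mink

variable {E : (Fin n → ℝ) → ℝ} (M : Mink E) {a : Fin n → ℝ} {W : (Fin n → ℝ) → Fin n → ℝ}

include M

lemma gM_symm {y : Fin n → ℝ} (hy : y ≠ 0) : (gM E y)ᵀ = gM E y := by
  ext i j
  exact d_comm M.sm hy i j

lemma CM_symm {y : Fin n → ℝ} (hy : y ≠ 0) (k : Fin n) : (CM E k y)ᵀ = CM E k y := by
  ext i j
  exact M.s12 hy j i k

lemma root {y : Fin n → ℝ} (hy : y ≠ 0) :
    (gM E y).det ≠ 0 ∧ ∃ B : Matrix (Fin n) (Fin n) ℝ, (gM E y)⁻¹ = Bᵀ * B ∧ B.det ≠ 0 :=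
  exists_root (M.gM_symm hy) (M.pd y hy)

lemma mul_inv {y : Fin n → ℝ} (hy : y ≠ 0) : gM E y * (gM E y)⁻¹ = 1 :=
  mul_nonsing_inv _ (isUnit_iff_ne_zero.2 (M.root hy).1)

lemma inv_mul {y : Fin n → ℝ} (hy : y ≠ 0) : (gM E y)⁻¹ * gM E y = 1 :=
  nonsing_inv_mul _ (isUnit_iff_ne_zero.2 (M.root hy).1)

lemma hM_symm {y : Fin n → ℝ} (hy : y ≠ 0) : ((gM E y)⁻¹)ᵀ = (gM E y)⁻¹ := by
  rw [transpose_nonsing_inv, M.gM_symm hy]

lemma gM_smul {y : Fin n → ℝ} (hy : y ≠ 0) {t : ℝ} (ht : 0 < t) : gM E (t • y) = gM E y := by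
  ext i j
  have := (M.hom.d i).d j y hy t ht
  simpa [gM] using this

lemma CM_smul {y : Fin n → ℝ} (hy : y ≠ 0) {t : ℝ} (ht : 0 < t) (k : Fin n) :
    CM E k (t • y) = t⁻¹ • CM E k y := by
  ext i j
  have := ((M.hom.d i).d j).d k y hy t ht
  have e : (2 : ℤ) - 1 - 1 - 1 = -1 := by norm_num
  rw [e, _root_.zpow_neg_one] at this
  simpa [CM] using this

lemma yC {y : Fin n → ℝ} (hy : y ≠ 0) (k : Fin n) : y ᵥ* CM E k y = 0 := by
  ext j
  have h := M.eu3 hy j k
  simp only [vecMul, dotProduct, CM, of_apply, Pi.zero_apply]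
  rw [← h]
  exact sum_congr rfl fun i _ => by rw [M.s12 hy i j k, M.s23 hy j i k]

lemma sumC {y : Fin n → ℝ} (hy : y ≠ 0) : ∑ k, y k • CM E k y = 0 := by
  ext i j
  rw [Matrix.sum_apply]
  simp only [Matrix.smul_apply, CM, of_apply, smul_eq_mul, Matrix.zero_apply]
  exact M.eu3 hy i j

lemma gSm (i j : Fin n) : Sm (fun y => gM E y i j) := (M.sm.d i).d j

lemma CSm (k i j : Fin n) : Sm (fun y => CM E k y i j) := ((M.sm.d i).d j).d k

lemma hSm (i j : Fin n) : Sm (fun y => (gM E y)⁻¹ i j) :=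
  Sm.matInv M.gSm (fun _ hy => (M.root hy).1) i j

lemma gM_line {y : Fin n → ℝ} (hy : y ≠ 0) (w : Fin n → ℝ) :
    MD (fun t => gM E (y + t • w)) (∑ p, w p • CM E p y) := by
  intro i j
  refine ((M.gSm i j).line0 hy w).congr_deriv ?_
  rw [Matrix.sum_apply]
  exact sum_congr rfl fun p _ => rfl

lemma hM_line {y : Fin n → ℝ} (hy : y ≠ 0) (w : Fin n → ℝ) :
    MD (fun t => (gM E (y + t • w))⁻¹) (-((gM E y)⁻¹ * (∑ p, w p • CM E p y) * (gM E y)⁻¹)) := by
  have h1 : MD (fun t => (gM E (y + t • w))⁻¹)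
      (Matrix.of fun i j => ∑ p, w p * d p (fun y => (gM E y)⁻¹ i j) y) := fun i j =>
    (M.hSm i j).line0 hy w
  have h2 := MD.inv (M.gM_line hy w) h1 (by
    filter_upwards [near hy w] with t ht using M.mul_inv ht) (by
    simpa using M.inv_mul hy)
  simp only [zero_smul, add_zero] at h2
  rw [h2] at h1
  exact h1

section eqs

variable (hWs : ∀ i, Sm (fun y => W y i))
  (hW : ∀ y, y ≠ 0 → ∀ i, ∑ j, d j (d i E) y * W y j = E y * a i)

include hWs hW

lemma gW {y : Fin n → ℝ} (hy : y ≠ 0) :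
    ∑ p, W y p • CM E p y = vecMulVec a (fun j => d j E y) - gM E y * WM W y := by
  ext i k
  have h := M.R3 hWs hW hy i k
  rw [sum_add_distrib] at h
  rw [Matrix.sum_apply, Matrix.sub_apply, vecMulVec_apply, Matrix.mul_apply]
  simp only [Matrix.smul_apply, CM, gM, WM, of_apply, smul_eq_mul]
  have h2 : ∑ p, W y p * d p (d k (d i E)) y = ∑ j, d k (d j (d i E)) y * W y j :=
    sum_congr rfl fun p _ => by rw [M.s23 hy i k p]; ring
  rw [h2]
  linarith

lemma hW_line {y : Fin n → ℝ} (hy : y ≠ 0) :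
    MD (fun t => (gM E (y + t • W y))⁻¹)
      (WM W y * (gM E y)⁻¹ - (E y)⁻¹ • vecMulVec (W y) y) := by
  refine (M.hM_line hy (W y)).congr ?_
  rw [M.gW hWs hW hy]
  have hE := (M.pos y hy).ne'
  have h1 : (gM E y)⁻¹ *ᵥ a = (E y)⁻¹ • W y := by
    have h2 : gM E y *ᵥ W y = E y • a := by
      ext i
      simp only [mulVec, dotProduct, gM, of_apply, Pi.smul_apply, smul_eq_mul]
      exact hW y hy i
    have h3 : (gM E y)⁻¹ *ᵥ (gM E y *ᵥ W y) = W y := by
      rw [mulVec_mulVec, M.inv_mul hy, one_mulVec]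
    rw [h2, mulVec_smul] at h3
    rw [← h3, smul_smul, inv_mul_cancel₀ hE, one_smul]
  have h4 : (fun j => d j E y) ᵥ* (gM E y)⁻¹ = y := by
    have h5 : y ᵥ* gM E y = fun j => d j E y := by
      ext j
      simp only [vecMul, dotProduct, gM, of_apply]
      rw [← M.eu2 hy j]
      exact sum_congr rfl fun i _ => by rw [d_comm M.sm hy j i]
    rw [← h5, vecMul_vecMul, M.mul_inv hy, vecMul_one]
  rw [mul_sub, sub_mul, mul_vecMulVec, vecMulVec_mul, h1, h4, ← mul_assoc, M.inv_mul hy, one_mul,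
    smul_vecMulVec]
  abel

variable (hL : ∀ y, y ≠ 0 → ∀ j k l, ∑ i, d i E y * d j (d k (d l (fun y => W y i))) y = 0)

include hL

lemma CW_line {y : Fin n → ℝ} (hy : y ≠ 0) (k : Fin n) :
    MD (fun t => CM E k (y + t • W y))
      (-((1 / 2 : ℝ) • (lin a y • CM E k y + (WM W y)ᵀ * CM E k y + CM E k y * WM W y
        + ∑ p, WM W y p k • CM E p y))) := by
  intro i j
  refine ((M.CSm k i j).line0 hy (W y)).congr_deriv ?_
  have h := M.KK hWs hW hL hy i j k
  simp only [Matrix.neg_apply, Matrix.smul_apply, Matrix.add_apply, Matrix.mul_apply, Matrix.sum_apply,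
    transpose_apply, CM, WM, of_apply, smul_eq_mul]
  linarith

omit hL in
/-- the constancy of `E tr (g⁻¹ N)` -/
lemma stage (ha : a ≠ 0) (hker : ∃ y : Fin n → ℝ, y ≠ 0 ∧ lin a y = 0)
    (N : (Fin n → ℝ) → Matrix (Fin n) (Fin n) ℝ) (hNs : ∀ i j, Sm (fun y => N y i j))
    (hNt : ∀ y, y ≠ 0 → (N y)ᵀ = N y) (hNy : ∀ y, y ≠ 0 → y ᵥ* N y = 0)
    (hNh : ∀ y, y ≠ 0 → ∀ t : ℝ, 0 < t → N (t • y) = (t ^ 2)⁻¹ • N y)
    (hNd : ∀ y, y ≠ 0 → MD (fun t => N (y + t • W y))
      (-(lin a y • N y) - (1 / 2 : ℝ) • ((WM W y)ᵀ * N y + N y * WM W y))) :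
    ∃ P, ∀ z, z ≠ 0 → E z * ((gM E z)⁻¹ * N z).trace = P := by
  refine M.const_of hW (Ψ := fun z => E z * ((gM E z)⁻¹ * N z).trace) ?_ ?_ ?_ ha hker
  · have h1 : Sm (fun z => E z * ((gM E z)⁻¹ * N z).trace) := by
      refine M.sm.mul ?_
      have : (fun z => ((gM E z)⁻¹ * N z).trace) = fun z => ∑ i, ∑ j, (gM E z)⁻¹ i j * N z j i := by
        funext z
        simp [Matrix.trace, Matrix.mul_apply]
      rw [this]
      exact Sm.sum fun i _ => Sm.sum fun j _ => (M.hSm i j).mul (hNs j i)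
    exact h1.cont
  · intro y hy t ht
    have h1 := M.hom y hy t ht
    have h2 : (t : ℝ) ^ (2 : ℤ) = t ^ 2 := by norm_cast
    simp only
    rw [h1, M.gM_smul hy ht, hNh y hy t ht, mul_smul_comm, trace_smul, h2, zpow_zero, smul_eq_mul]
    have : t ^ 2 ≠ 0 := by positivity
    field_simp
  · intro y hy
    have h1 := M.sm.line0 hy (W y)
    rw [M.dE hW hy] at h1
    have h2 := ((M.hW_line hWs hW hy).mul (hNd y hy)).trace
    have h3 := h1.mul h2
    simp only [zero_smul, add_zero] at h3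
    have h4 := core_trace (f := lin a y) (c := (E y)⁻¹) (W := W y) (M.hM_symm hy) (hNt y hy) (hNy y hy) rfl rfl
      (M := WM W y)
    rw [h4] at h3
    refine h3.congr_deriv ?_
    ring

lemma I_line {y : Fin n → ℝ} (hy : y ≠ 0) (k : Fin n) :
    HasDerivAt (fun t : ℝ => ((gM E (y + t • W y))⁻¹ * CM E k (y + t • W y)).trace)
      (-(1 / 2) * (lin a y * ((gM E y)⁻¹ * CM E k y).trace
        + ∑ p, WM W y p k * ((gM E y)⁻¹ * CM E p y).trace)) 0 := by
  have h2 := ((M.hW_line hWs hW hy).mul (M.CW_line hWs hW hL hy k)).trace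
  simp only [zero_smul, add_zero] at h2
  refine h2.congr_deriv ?_
  exact core_I (f := lin a y) (c := (E y)⁻¹) (W := W y) (y := y) (C := fun k => CM E k y) (M.hM_symm hy)
    (fun k => M.CM_symm hy k) (fun k => M.yC hy k) rfl (fun k => rfl) k

lemma N_line {y : Fin n → ℝ} (hy : y ≠ 0) (k l : Fin n) :
    HasDerivAt (fun t : ℝ => ((gM E (y + t • W y))⁻¹ * CM E k (y + t • W y) *
        ((gM E (y + t • W y))⁻¹ * CM E l (y + t • W y))).trace)
      (-lin a y * ((gM E y)⁻¹ * CM E k y * ((gM E y)⁻¹ * CM E l y)).trace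
        - (1 / 2) * (∑ p, WM W y p k * ((gM E y)⁻¹ * CM E p y * ((gM E y)⁻¹ * CM E l y)).trace
        + ∑ p, WM W y p l * ((gM E y)⁻¹ * CM E k y * ((gM E y)⁻¹ * CM E p y)).trace)) 0 := by
  have h2 := (((M.hW_line hWs hW hy).mul (M.CW_line hWs hW hL hy k)).mul
    ((M.hW_line hWs hW hy).mul (M.CW_line hWs hW hL hy l))).trace
  simp only [zero_smul, add_zero] at h2
  refine h2.congr_deriv ?_
  exact core_N (f := lin a y) (c := (E y)⁻¹) (W := W y) (y := y) (C := fun k => CM E k y) (M.hM_symm hy)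
    (fun k => M.CM_symm hy k) (fun k => M.yC hy k) rfl (fun k => rfl) k l

omit hWs hW hL in
lemma hC_smul {y : Fin n → ℝ} (hy : y ≠ 0) {t : ℝ} (ht : 0 < t) (k : Fin n) :
    (gM E (t • y))⁻¹ * CM E k (t • y) = t⁻¹ • ((gM E y)⁻¹ * CM E k y) := by
  rw [M.gM_smul hy ht, M.CM_smul hy ht, mul_smul_comm]

omit hWs hW hL in
lemma hCSm (k i j : Fin n) : Sm (fun y => ((gM E y)⁻¹ * CM E k y) i j) := by
  simp only [Matrix.mul_apply]
  exact Sm.sum fun p _ => (M.hSm i p).mul (M.CSm k p j)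

omit hWs hW hL in
lemma ISm (k : Fin n) : Sm (fun y => ((gM E y)⁻¹ * CM E k y).trace) := by
  simp only [Matrix.trace, Matrix.diag_apply]
  exact Sm.sum fun i _ => M.hCSm k i i

omit hWs hW hL in
lemma NSm (k l : Fin n) : Sm (fun y => ((gM E y)⁻¹ * CM E k y * ((gM E y)⁻¹ * CM E l y)).trace) := by
  simp only [tr_mul]
  exact Sm.sum fun i _ => Sm.sum fun j _ => (M.hCSm k i j).mul (M.hCSm l j i)

/-- the mean Cartan form has constant length -/
lemma stage1 (ha : a ≠ 0) (hker : ∃ y : Fin n → ℝ, y ≠ 0 ∧ lin a y = 0) :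
    ∃ P, ∀ z, z ≠ 0 → E z * ((gM E z)⁻¹ * Matrix.of fun k l =>
      ((gM E z)⁻¹ * CM E k z).trace * ((gM E z)⁻¹ * CM E l z).trace).trace = P := by
  refine M.stage hWs hW ha hker _ ?_ ?_ ?_ ?_ ?_
  · intro k l
    exact (M.ISm k).mul (M.ISm l)
  · intro y hy
    ext k l
    simp only [transpose_apply, of_apply]
    ring
  · intro y hy
    ext l
    simp only [vecMul, dotProduct, of_apply, Pi.zero_apply]
    have h1 : ∑ k, y k * ((gM E y)⁻¹ * CM E k y).trace = 0 := by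
      have h2 : ((gM E y)⁻¹ * ∑ k, y k • CM E k y).trace = 0 := by
        rw [M.sumC hy, mul_zero, trace_zero]
      rw [mul_sum, trace_sum] at h2
      rw [← h2]
      exact sum_congr rfl fun k _ => by rw [mul_smul_comm, trace_smul, smul_eq_mul]
    calc ∑ k, y k * (((gM E y)⁻¹ * CM E k y).trace * ((gM E y)⁻¹ * CM E l y).trace)
        = (∑ k, y k * ((gM E y)⁻¹ * CM E k y).trace) * ((gM E y)⁻¹ * CM E l y).trace := by
          rw [sum_mul]
          exact sum_congr rfl fun k _ => by ring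
      _ = 0 := by rw [h1, zero_mul]
  · intro y hy t ht
    ext k l
    simp only [of_apply, Matrix.smul_apply, M.hC_smul hy ht, trace_smul, smul_eq_mul]
    have : t ≠ 0 := ht.ne'
    field_simp
  · intro y hy k l
    have h := (M.I_line hWs hW hL hy k).mul (M.I_line hWs hW hL hy l)
    simp only [zero_smul, add_zero] at h
    refine h.congr_deriv ?_
    simp only [Matrix.sub_apply, Matrix.neg_apply, Matrix.smul_apply, Matrix.add_apply, Matrix.mul_apply,
      transpose_apply, of_apply, smul_eq_mul]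
    have e1 : ∑ p, WM W y p k * (((gM E y)⁻¹ * CM E p y).trace * ((gM E y)⁻¹ * CM E l y).trace)
        = (∑ p, WM W y p k * ((gM E y)⁻¹ * CM E p y).trace) * ((gM E y)⁻¹ * CM E l y).trace := by
      rw [sum_mul]
      exact sum_congr rfl fun p _ => by ring
    have e2 : ∑ p, ((gM E y)⁻¹ * CM E k y).trace * ((gM E y)⁻¹ * CM E p y).trace * WM W y p l
        = ((gM E y)⁻¹ * CM E k y).trace * ∑ p, WM W y p l * ((gM E y)⁻¹ * CM E p y).trace := by
      rw [mul_sum]
      exact sum_congr rfl fun p _ => by ring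
    rw [e1, e2]
    ring

/-- the Cartan tensor has constant length -/
lemma stage2 (ha : a ≠ 0) (hker : ∃ y : Fin n → ℝ, y ≠ 0 ∧ lin a y = 0) :
    ∃ P, ∀ z, z ≠ 0 → E z * ((gM E z)⁻¹ * Matrix.of fun k l =>
      ((gM E z)⁻¹ * CM E k z * ((gM E z)⁻¹ * CM E l z)).trace).trace = P := by
  refine M.stage hWs hW ha hker _ ?_ ?_ ?_ ?_ ?_
  · intro k l
    exact M.NSm k l
  · intro y hy
    ext k l
    simp only [transpose_apply, of_apply]
    rw [trace_mul_comm]
  · intro y hy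
    ext l
    simp only [vecMul, dotProduct, of_apply, Pi.zero_apply]
    have h2 : (((gM E y)⁻¹ * ∑ k, y k • CM E k y) * ((gM E y)⁻¹ * CM E l y)).trace = 0 := by
      rw [M.sumC hy, mul_zero, zero_mul, trace_zero]
    rw [mul_sum, sum_mul, trace_sum] at h2
    rw [← h2]
    exact sum_congr rfl fun k _ => by rw [mul_smul_comm, smul_mul_assoc, trace_smul, smul_eq_mul]
  · intro y hy t ht
    ext k l
    simp only [of_apply, Matrix.smul_apply, M.hC_smul hy ht, smul_mul_assoc, mul_smul_comm, trace_smul,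
      smul_eq_mul]
    have : t ≠ 0 := ht.ne'
    field_simp
  · intro y hy k l
    have h := M.N_line hWs hW hL hy k l
    refine h.congr_deriv ?_
    obtain ⟨Q, hQ⟩ : ∃ Q : Matrix (Fin n) (Fin n) ℝ, Q = Matrix.of fun k l =>
      ((gM E y)⁻¹ * CM E k y * ((gM E y)⁻¹ * CM E l y)).trace := ⟨_, rfl⟩
    have hQ' : ∀ k l, ((gM E y)⁻¹ * CM E k y * ((gM E y)⁻¹ * CM E l y)).trace = Q k l := fun k l => by
      rw [hQ, of_apply]
    rw [← hQ]
    simp only [hQ', Matrix.sub_apply, Matrix.neg_apply, Matrix.smul_apply, Matrix.add_apply,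
      Matrix.mul_apply, transpose_apply, smul_eq_mul]
    have e2 : ∑ p, Q k p * WM W y p l = ∑ p, WM W y p l * Q k p :=
      sum_congr rfl fun p _ => by ring
    rw [e2]
    ring

end eqs

end Mink

end Pool.Agent.Q145.LB
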