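import Pool.Agent.Q145.LB.Pw
import Pool.Agent.Y519.UN.Defs

/-! The conformal change of the spray. -/

set_option autoImplicit false

open scoped ContDiff

namespace Pool.Agent.Q145.LB

open Finset Matrix Pool.Agent.Y519.UN

variable {n : ℕ}

lemma d_cmul (c : ℝ) (φ : (Fin n → ℝ) → ℝ) (i : Fin n) (y : Fin n → ℝ) :
    d i (fun y => c * φ y) y = c * d i φ y := by
  have h6 : (fun z => c * φ z) = c • φ := rfl
  unfold d
  rw [h6, fderiv_const_smul_field]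
  rfl

lemma d_add {φ ψ : (Fin n → ℝ) → ℝ} (h : Sm φ) (h' : Sm ψ) {y : Fin n → ℝ} (hy : y ≠ 0) (i : Fin n) :
    d i (fun y => φ y + ψ y) y = d i φ y + d i ψ y := by
  have h1 : HasDerivAt (fun s : ℝ => φ (y + s • (Pi.single i (1 : ℝ) : Fin n → ℝ)) +
      ψ (y + s • (Pi.single i (1 : ℝ) : Fin n → ℝ))) (d i φ y + d i ψ y) 0 := (h.dir hy i).add (h'.dir hy i)
  exact ((h.add h').dir hy i).unique h1

lemma d_mul {φ ψ : (Fin n → ℝ) → ℝ} (h : Sm φ) (h' : Sm ψ) {y : Fin n → ℝ} (hy : y ≠ 0) (i : Fin n) :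
    d i (fun y => φ y * ψ y) y = d i φ y * ψ y + φ y * d i ψ y :=
  ((h.mul h').dir hy i).unique (Sm.dirm h h' hy i)

lemma d_lin (a : Fin n → ℝ) {y : Fin n → ℝ} (hy : y ≠ 0) (i : Fin n) : d i (lin a) y = a i :=
  ((lin_sm a).dir hy i).unique (lin_dir a y i)

lemma d_const (c : ℝ) (y : Fin n → ℝ) (i : Fin n) : d i (fun _ => c) y = 0 := by
  unfold d
  simp

lemma coord_eq (i : Fin n) : (fun y : Fin n → ℝ => y i) = lin (Pi.single i (1 : ℝ)) := by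
  funext y
  unfold lin
  simp [Pi.single_apply]

/-- third derivatives of `(a · y) y_i` vanish -/
lemma d3_quad (a : Fin n → ℝ) (i j k l : Fin n) {y : Fin n → ℝ} (hy : y ≠ 0) :
    d j (d k (d l fun y => lin a y * y i)) y = 0 := by
  have hc : Sm (fun y : Fin n → ℝ => y i) := Sm.coord i
  obtain ⟨e, he⟩ : ∃ e : Fin n → ℝ, e = Pi.single i (1 : ℝ) := ⟨_, rfl⟩
  have e1 : (fun y : Fin n → ℝ => y i) = lin e := by rw [he, coord_eq]
  have e0 : (fun y : Fin n → ℝ => lin a y * y i) = fun y => lin a y * lin e y := by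
    rw [← e1]
  rw [e0]
  have h1 : ∀ z : Fin n → ℝ, z ≠ 0 → d l (fun y => lin a y * lin e y) z = a l * lin e z + lin a z * e l := by
    intro z hz
    rw [d_mul (lin_sm a) (lin_sm e) hz, d_lin a hz, d_lin e hz]
  have h2 : ∀ z : Fin n → ℝ, z ≠ 0 → d k (d l fun y => lin a y * lin e y) z = a l * e k + a k * e l := by
    intro z hz
    rw [d_congr h1 hz k, d_add ((Sm.const _).mul (lin_sm e)) ((lin_sm a).mul (Sm.const _)) hz,
      d_mul (Sm.const _) (lin_sm e) hz, d_mul (lin_sm a) (Sm.const _) hz, d_lin a hz, d_lin e hz,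
      d_const, d_const]
    ring
  rw [d_congr h2 hy j, d_const]

/-- smooth Finsler metrics on an open set -/
structure IsFinslerOn (U : Set (Fin n → ℝ)) (F : (Fin n → ℝ) → (Fin n → ℝ) → ℝ) : Prop where
  smooth : ContDiffOn ℝ ∞ (fun p : (Fin n → ℝ) × (Fin n → ℝ) => F p.1 p.2) (U ×ˢ {y | y ≠ 0})
  pos : ∀ x ∈ U, ∀ y, y ≠ 0 → 0 < F x y
  hom : ∀ x ∈ U, ∀ y (t : ℝ), 0 < t → F x (t • y) = t * F x y
  convex : ∀ x ∈ U, ∀ y, y ≠ 0 → ∀ v, v ≠ 0 → 0 < nsq F x y v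

section

variable {U : Set (Fin n → ℝ)} {F : (Fin n → ℝ) → (Fin n → ℝ) → ℝ} (hU : IsOpen U) (hF : IsFinslerOn U F)

/-- the energy at `x` -/
noncomputable def En (F : (Fin n → ℝ) → (Fin n → ℝ) → ℝ) (x : Fin n → ℝ) : (Fin n → ℝ) → ℝ :=
  fun y => 1 / 2 * F x y ^ 2

lemma opn (hU : IsOpen U) : IsOpen (U ×ˢ {y : Fin n → ℝ | y ≠ 0}) := hU.prod isOpen0

lemma mem_pr {x y : Fin n → ℝ} (hx : x ∈ U) (hy : y ≠ 0) : (x, y) ∈ U ×ˢ {y : Fin n → ℝ | y ≠ 0} := ⟨hx, hy⟩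

include hU hF

omit hU in
lemma HSm : ContDiffOn ℝ ∞ (fun p : (Fin n → ℝ) × (Fin n → ℝ) => F p.1 p.2 ^ 2) (U ×ˢ {y | y ≠ 0}) :=
  hF.smooth.pow 2

omit hU in
lemma sqSm {x : Fin n → ℝ} (hx : x ∈ U) : Sm (fun y => F x y ^ 2) := by
  have h1 : ContDiffOn ℝ ∞ (fun y : Fin n → ℝ => (x, y)) {y | y ≠ 0} :=
    (contDiff_const.prodMk contDiff_id).contDiffOn
  exact (hF.smooth.pow 2).comp h1 fun y hy => ⟨hx, hy⟩

omit hU in
lemma EnSm {x : Fin n → ℝ} (hx : x ∈ U) : Sm (En F x) := (Sm.const _).mul (sqSm hF hx)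

omit hU hF in
lemma fund_eq (x y : Fin n → ℝ) (i j : Fin n) : fund F x y i j = d i (d j (En F x)) y := by
  have h1 : d j (En F x) = fun y => 1 / 2 * d j (fun u => F x u ^ 2) y := by
    funext z
    exact d_cmul _ _ _ _
  rw [h1, d_cmul]
  rfl

omit hU in
lemma mink {x : Fin n → ℝ} (hx : x ∈ U) : Mink (En F x) where
  sm := EnSm hF hx
  hom := by
    intro y hy t ht
    have h2 : (t : ℝ) ^ (2 : ℤ) = t ^ 2 := by norm_cast
    simp only [En]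
    rw [hF.hom x hx y t ht, h2]
    ring
  pos := by
    intro y hy
    have := hF.pos x hx y hy
    simp only [En]
    positivity
  pd := by
    intro y hy v hv
    have h := hF.convex x hx y hy v hv
    unfold nsq at h
    simp only [fund_eq] at h
    refine h.trans_eq (sum_congr rfl fun i _ => sum_congr rfl fun j _ => ?_)
    rw [d_comm (EnSm hF hx) hy i j]

/-- the derivative in `y` as a partial derivative -/
lemma dy_eq {x y : Fin n → ℝ} (hx : x ∈ U) (hy : y ≠ 0) (l : Fin n) :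
    d l (fun u => F x u ^ 2) y
      = fderiv ℝ (fun p : (Fin n → ℝ) × (Fin n → ℝ) => F p.1 p.2 ^ 2) (x, y) (0, Pi.single l (1 : ℝ)) := by
  have h1 : HasFDerivAt (fun p : (Fin n → ℝ) × (Fin n → ℝ) => F p.1 p.2 ^ 2)
      (fderiv ℝ (fun p : (Fin n → ℝ) × (Fin n → ℝ) => F p.1 p.2 ^ 2) (x, y)) (x, y) :=
    (((HSm hF).contDiffAt ((opn hU).mem_nhds (mem_pr hx hy))).differentiableAt (by simp)).hasFDerivAt
  have h2 : HasFDerivAt (fun u : Fin n → ℝ => (x, u)) (ContinuousLinearMap.inr ℝ (Fin n → ℝ) (Fin n → ℝ)) y :=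
    hasFDerivAt_prodMk_right x y
  have h3 := (h1.comp y h2).fderiv
  unfold d
  have h4 : (fun u => F x u ^ 2) = (fun p : (Fin n → ℝ) × (Fin n → ℝ) => F p.1 p.2 ^ 2) ∘
      (fun u : Fin n → ℝ => (x, u)) := rfl
  rw [h4, h3]
  simp

lemma dx_eq {x y : Fin n → ℝ} (hx : x ∈ U) (hy : y ≠ 0) (l : Fin n) :
    d l (fun z => F z y ^ 2) x
      = fderiv ℝ (fun p : (Fin n → ℝ) × (Fin n → ℝ) => F p.1 p.2 ^ 2) (x, y) (Pi.single l (1 : ℝ), 0) := by
  have h1 : HasFDerivAt (fun p : (Fin n → ℝ) × (Fin n → ℝ) => F p.1 p.2 ^ 2)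
      (fderiv ℝ (fun p : (Fin n → ℝ) × (Fin n → ℝ) => F p.1 p.2 ^ 2) (x, y)) (x, y) :=
    (((HSm hF).contDiffAt ((opn hU).mem_nhds (mem_pr hx hy))).differentiableAt (by simp)).hasFDerivAt
  have h2 : HasFDerivAt (fun u : Fin n → ℝ => (u, y)) (ContinuousLinearMap.inl ℝ (Fin n → ℝ) (Fin n → ℝ)) x :=
    hasFDerivAt_prodMk_left x y
  have h3 := (h1.comp x h2).fderiv
  unfold d
  have h4 : (fun z => F z y ^ 2) = (fun p : (Fin n → ℝ) × (Fin n → ℝ) => F p.1 p.2 ^ 2) ∘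
      (fun u : Fin n → ℝ => (u, y)) := rfl
  rw [h4, h3]
  simp

/-- the first derivatives of the square, as a smooth function of both variables -/
lemma DSm (w : (Fin n → ℝ) × (Fin n → ℝ)) : ContDiffOn ℝ ∞ (fun q : (Fin n → ℝ) × (Fin n → ℝ) =>
    fderiv ℝ (fun p : (Fin n → ℝ) × (Fin n → ℝ) => F p.1 p.2 ^ 2) q w) (U ×ˢ {y | y ≠ 0}) := by
  have h1 : ContDiffOn ℝ ∞ (fderiv ℝ (fun p : (Fin n → ℝ) × (Fin n → ℝ) => F p.1 p.2 ^ 2))
      (U ×ˢ {y | y ≠ 0}) := (HSm hF).fderiv_of_isOpen (opn hU) (by simp)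
  exact h1.clm_apply contDiffOn_const

/-- mixed derivatives -/
lemma dxy_eq {x y : Fin n → ℝ} (hx : x ∈ U) (hy : y ≠ 0) (k l : Fin n) :
    DifferentiableAt ℝ (fun z => d l (fun u => F z u ^ 2) y) x ∧
    d k (fun z => d l (fun u => F z u ^ 2) y) x
      = fderiv ℝ (fun q : (Fin n → ℝ) × (Fin n → ℝ) =>
          fderiv ℝ (fun p : (Fin n → ℝ) × (Fin n → ℝ) => F p.1 p.2 ^ 2) q (0, Pi.single l (1 : ℝ)))
          (x, y) (Pi.single k (1 : ℝ), 0) := by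
  obtain ⟨g, hg⟩ : ∃ g : (Fin n → ℝ) × (Fin n → ℝ) → ℝ, g = fun q =>
      fderiv ℝ (fun p : (Fin n → ℝ) × (Fin n → ℝ) => F p.1 p.2 ^ 2) q (0, Pi.single l (1 : ℝ)) := ⟨_, rfl⟩
  have hgs : ContDiffOn ℝ ∞ g (U ×ˢ {y | y ≠ 0}) := by
    rw [hg]
    exact DSm hU hF _
  rw [← hg]
  have h1 : HasFDerivAt g (fderiv ℝ g (x, y)) (x, y) :=
    ((hgs.contDiffAt ((opn hU).mem_nhds (mem_pr hx hy))).differentiableAt (by simp)).hasFDerivAt
  have h2 : HasFDerivAt (fun u : Fin n → ℝ => (u, y)) (ContinuousLinearMap.inl ℝ (Fin n → ℝ) (Fin n → ℝ)) x :=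
    hasFDerivAt_prodMk_left x y
  have h3 := h1.comp x h2
  have h4 : (fun z => d l (fun u => F z u ^ 2) y) =ᶠ[nhds x] g ∘ (fun u : Fin n → ℝ => (u, y)) := by
    filter_upwards [hU.mem_nhds hx] with z hz
    rw [dy_eq hU hF hz hy l, hg]
    rfl
  have h5 := h3.congr_of_eventuallyEq h4
  refine ⟨h5.differentiableAt, ?_⟩
  have h6 := h5.fderiv
  unfold d
  unfold d at h6
  rw [h6]
  simp

/-- the right hand side of the equation of the spray -/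
noncomputable def RR (F : (Fin n → ℝ) → (Fin n → ℝ) → ℝ) (x : Fin n → ℝ) (l : Fin n) (y : Fin n → ℝ) : ℝ :=
  1 / 4 * (∑ k, d k (fun z => d l (fun u => F z u ^ 2) y) x * y k - d l (fun z => F z y ^ 2) x)

lemma RSm {x : Fin n → ℝ} (hx : x ∈ U) (l : Fin n) : Sm (RR F x l) := by
  have hc : ∀ g : (Fin n → ℝ) × (Fin n → ℝ) → ℝ, ContDiffOn ℝ ∞ g (U ×ˢ {y | y ≠ 0}) →
      Sm (fun y => g (x, y)) := by
    intro g hg
    have h1 : ContDiffOn ℝ ∞ (fun y : Fin n → ℝ => (x, y)) {y | y ≠ 0} :=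
      (contDiff_const.prodMk contDiff_id).contDiffOn
    exact hg.comp h1 fun y hy => ⟨hx, hy⟩
  have h2 : Sm (fun y => d l (fun z => F z y ^ 2) x) :=
    (hc _ (DSm hU hF (Pi.single l (1 : ℝ), 0))).congr fun y hy => dx_eq hU hF hx hy l
  have h3 : ∀ k, Sm (fun y => d k (fun z => d l (fun u => F z u ^ 2) y) x) := by
    intro k
    have h4 : ContDiffOn ℝ ∞ (fun q : (Fin n → ℝ) × (Fin n → ℝ) => fderiv ℝ (fun q : (Fin n → ℝ) × (Fin n → ℝ) =>
          fderiv ℝ (fun p : (Fin n → ℝ) × (Fin n → ℝ) => F p.1 p.2 ^ 2) q (0, Pi.single l (1 : ℝ)))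
          q (Pi.single k (1 : ℝ), 0)) (U ×ˢ {y | y ≠ 0}) := by
      have h5 := (DSm hU hF ((0 : Fin n → ℝ), (Pi.single l (1 : ℝ) : Fin n → ℝ))).fderiv_of_isOpen
        (m := ∞) (opn hU) (by simp)
      exact h5.clm_apply contDiffOn_const
    exact (hc _ h4).congr fun y hy => (dxy_eq hU hF hx hy k l).2
  have h6 : Sm (fun y => (∑ k, d k (fun z => d l (fun u => F z u ^ 2) y) x * y k)
      + (-1) * d l (fun z => F z y ^ 2) x) :=
    (Sm.sum fun k _ => (h3 k).mul (Sm.coord k)).add ((Sm.const (-1)).mul h2)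
  refine ((Sm.const (1 / 4)).mul h6).congr fun y _ => ?_
  unfold RR
  ring

end

end Pool.Agent.Q145.LB
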